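import Mathlib

/-! # Rays, Busemann functions, angles, Hadamard spaces, curvature at least -1, ideal triangles -/

set_option autoImplicit false

namespace Pool.Agent.E8helper72.TR

open Set Filter Topology UpperHalfPlane

section General

variable {X : Type*} [MetricSpace X]

/-- a unit-speed geodesic ray (only the values at `t ≥ 0` matter) -/
def IsRay (γ : ℝ → X) : Prop := ∀ s t : ℝ, 0 ≤ s → 0 ≤ t → dist (γ s) (γ t) = |s - t|

/-- `σ` is a unit-speed minimal geodesic from `p` to `q`
(only the values on `[0, dist p q]` matter) -/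
def IsSeg (σ : ℝ → X) (p q : X) : Prop :=
  σ 0 = p ∧ σ (dist p q) = q ∧
    ∀ s t : ℝ, s ∈ Icc 0 (dist p q) → t ∈ Icc 0 (dist p q) → dist (σ s) (σ t) = |s - t|

/-- the Busemann function of the ray `γ` -/
noncomputable def busemann (γ : ℝ → X) (p : X) : ℝ :=
  limUnder atTop (fun t : ℝ => dist p (γ t) - t)

/-- the (Alexandrov) angle at the common starting point of two unit-speed geodesics:
the limit of the Euclidean comparison angles of the points at distance `t` -/
noncomputable def angle (γ σ : ℝ → X) : ℝ :=
  limUnder (𝓝[>] (0 : ℝ)) (fun t : ℝ => 2 * Real.arcsin (dist (γ t) (σ t) / (2 * t)))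

/-- two rays are asymptotic: they define the same point at infinity -/
def Asymptotic (γ ρ : ℝ → X) : Prop := ∃ K : ℝ, ∀ t : ℝ, 0 ≤ t → dist (γ t) (ρ t) ≤ K

/-- a set which contains every point of every minimal geodesic between two of its points -/
def GConvex (C : Set X) : Prop :=
  ∀ p ∈ C, ∀ q ∈ C, ∀ m : X, dist p m + dist m q = dist p q → m ∈ C

variable (X) in
/-- a Hadamard space: complete, geodesic and nonpositively curved (CAT(0), in the form of the
Bruhat-Tits inequality for midpoints) -/
structure Hadamard : Prop where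
  complete : CompleteSpace X
  geodesic : ∀ p q : X, ∃ σ : ℝ → X, IsSeg σ p q
  cat0 : ∀ p q m z : X, dist p m = dist p q / 2 → dist m q = dist p q / 2 →
    dist z m ^ 2 ≤ dist z p ^ 2 / 2 + dist z q ^ 2 / 2 - dist p q ^ 2 / 4

variable (X) in
/-- curvature at least `-1` in the sense of Toponogov comparison: for a point `m` on the side
from `q` to `r` of a triangle `p q r` and the corresponding point `m'` of a comparison triangle
`p' q' r'` in the hyperbolic plane, `dist p' m' ≤ dist p m` -/
def CurvGE : Prop :=
  ∀ (p q r m : X) (p' q' r' m' : ℍ),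
    dist q m + dist m r = dist q r → dist q' m' + dist m' r' = dist q' r' →
    dist p' q' = dist p q → dist p' r' = dist p r → dist q' r' = dist q r →
    dist q' m' = dist q m → dist p' m' ≤ dist p m

end General

/-- the closed ideal triangle in the hyperbolic plane with vertices `γ 0`, `y` and the ideal
endpoint of the ray `γ`: the smallest closed convex set containing `y` and the ray `γ` -/
def idealTriangle (γ : ℝ → ℍ) (y : ℍ) : Set ℍ :=
  ⋂₀ {C : Set ℍ | IsClosed C ∧ GConvex C ∧ y ∈ C ∧ ∀ t : ℝ, 0 ≤ t → γ t ∈ C}

end Pool.Agent.E8helper72.TR
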