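import Pool.Agent.E8helper72.TR.Rig

/-! # The ideal triangle and its image -/

set_option autoImplicit false

namespace Pool.Agent.E8helper72.TR

open Set Filter Topology UpperHalfPlane

/-! ## The union of the segments from `y` to the ray in the hyperbolic plane -/

/-- union of the segments from `y` to the points of the ray -/
def TS (γ₁ : ℝ → ℍ) (y₁ : ℍ) : Set ℍ :=
  {m | ∃ t : ℝ, 0 ≤ t ∧ dist y₁ m + dist m (γ₁ t) = dist y₁ (γ₁ t)}

lemma repr_seg {A B p : ℍ} (h : dist A p + dist p B = dist A B) :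
    ∃ N l m : ℝ, 0 < N ∧ 0 ≤ l ∧ 0 ≤ m ∧ Comb N l m p A B := by
  rcases (dist_nonneg : 0 ≤ dist A B).eq_or_lt with h0 | h0
  · have : A = p := dist_eq_zero.mp (by
      have := dist_nonneg (x := A) (y := p); have := dist_nonneg (x := p) (y := B); linarith)
    refine ⟨1, 1, 0, one_pos, zero_le_one, le_rfl, ?_, ?_, ?_⟩ <;> rw [← this] <;> ring
  · exact ⟨_, _, _, Real.sinh_pos_iff.mpr h0, Real.sinh_nonneg_iff.mpr dist_nonneg,
      Real.sinh_nonneg_iff.mpr dist_nonneg, comb_of_between h⟩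

lemma ray_pt {γ₁ : ℝ → ℍ} (hray : IsRay γ₁) {t t' : ℝ} (ht : 0 ≤ t) (htt : t ≤ t') {n : ℍ}
    (h : dist (γ₁ t) n + dist n (γ₁ t') = dist (γ₁ t) (γ₁ t')) :
    n = γ₁ (t + dist (γ₁ t) n) := by
  have hL : dist (γ₁ t) (γ₁ t') = t' - t := by
    rw [hray t t' ht (ht.trans htt), abs_of_nonpos (by linarith)]; ring
  have h0 : 0 ≤ dist (γ₁ t) n := dist_nonneg
  have h1 : 0 ≤ dist n (γ₁ t') := dist_nonneg
  set s := t + dist (γ₁ t) n with hs
  have e1 : dist (γ₁ t) (γ₁ s) = dist (γ₁ t) n := by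
    rw [hray t s ht (by linarith), abs_of_nonpos (by linarith)]; linarith
  have e2 : dist (γ₁ s) (γ₁ t') = t' - s := by
    rw [hray s t' (by linarith) (by linarith), abs_of_nonpos (by linarith)]; ring
  exact ug_H.uniq (γ₁ t) (γ₁ t') n (γ₁ s) h (by rw [e1, e2, hL, hs]; ring) e1.symm

lemma TS_of_comb {γ₁ : ℝ → ℍ} (hray : IsRay γ₁) {y₁ m : ℍ} {N l a b t t' : ℝ} (hN : 0 < N)
    (hl : 0 ≤ l) (ha : 0 ≤ a) (hb : 0 ≤ b) (ht : 0 ≤ t) (htt : t ≤ t')
    (ea : N * va m = l * va y₁ + a * va (γ₁ t) + b * va (γ₁ t'))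
    (eb : N * vb m = l * vb y₁ + a * vb (γ₁ t) + b * vb (γ₁ t'))
    (ec : N * vc m = l * vc y₁ + a * vc (γ₁ t) + b * vc (γ₁ t')) : m ∈ TS γ₁ y₁ := by
  rcases (add_nonneg ha hb).eq_or_lt with h0 | h0
  · have ha0 : a = 0 := by linarith
    have hb0 : b = 0 := by linarith
    refine ⟨0, le_rfl, ?_⟩
    have : Comb N l 0 m y₁ (γ₁ 0) := by
      refine ⟨?_, ?_, ?_⟩
      · rw [ea, ha0, hb0]; ring
      · rw [eb, ha0, hb0]; ring
      · rw [ec, ha0, hb0]; ring
    exact this.between hN hl le_rfl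
  · obtain ⟨M, n, hM, hc⟩ := exists_comb ha hb h0 (γ₁ t) (γ₁ t')
    have hbt := hc.between hM ha hb
    have hn := ray_pt hray ht htt hbt
    refine ⟨t + dist (γ₁ t) n, by positivity, ?_⟩
    rw [← hn]
    have : Comb N l M m y₁ n := by
      refine ⟨?_, ?_, ?_⟩
      · rw [ea, hc.a]; ring
      · rw [eb, hc.b]; ring
      · rw [ec, hc.c]; ring
    exact this.between hN hl hM.le

lemma TS_convex {γ₁ : ℝ → ℍ} (hray : IsRay γ₁) (y₁ : ℍ) : GConvex (TS γ₁ y₁) := by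
  -- symmetric argument, first for t ≤ t'
  have key : ∀ (p q m : ℍ) (t t' : ℝ), 0 ≤ t → t ≤ t' →
      dist y₁ p + dist p (γ₁ t) = dist y₁ (γ₁ t) →
      dist y₁ q + dist q (γ₁ t') = dist y₁ (γ₁ t') → dist p m + dist m q = dist p q →
      m ∈ TS γ₁ y₁ := by
    intro p q m t t' ht htt hp hq hm
    obtain ⟨Np, lp, mp, hNp, hlp, hmp, cp⟩ := repr_seg hp
    obtain ⟨Nq, lq, mq, hNq, hlq, hmq, cq⟩ := repr_seg hq
    obtain ⟨N, l, k, hN, hl, hk, c⟩ := repr_seg hm
    refine TS_of_comb hray (N := N * Np * Nq) (l := l * Nq * lp + k * Np * lq) (a := l * Nq * mp)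
      (b := k * Np * mq) (by positivity) (by positivity) (by positivity) (by positivity) ht htt
      ?_ ?_ ?_
    · linear_combination (Np * Nq) * c.a + (l * Nq) * cp.a + (k * Np) * cq.a
    · linear_combination (Np * Nq) * c.b + (l * Nq) * cp.b + (k * Np) * cq.b
    · linear_combination (Np * Nq) * c.c + (l * Nq) * cp.c + (k * Np) * cq.c
  rintro p ⟨t, ht, hp⟩ q ⟨t', ht', hq⟩ m hm
  rcases le_total t t' with h | h
  · exact key p q m t t' ht h hp hq hm
  · refine key q p m t' t ht' h hq hp ?_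
    rw [dist_comm q m, dist_comm m p, dist_comm q p]; linarith

/-- the closure of a convex set of the hyperbolic plane is convex -/
lemma convex_closure {C : Set ℍ} (hC : GConvex C) : GConvex (closure C) := by
  intro p hp q hq m hm
  obtain ⟨N, l, k, hN, hl, hk, c⟩ := repr_seg hm
  obtain ⟨u, huC, hu⟩ := mem_closure_iff_seq_limit.mp hp
  obtain ⟨v, hvC, hv⟩ := mem_closure_iff_seq_limit.mp hq
  have hlk : 0 < l + k := by
    rcases (add_nonneg hl hk).eq_or_lt with h | h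
    · exfalso
      have h1 : l = 0 := by linarith
      have h2 : k = 0 := by linarith
      have := c.norm
      rw [h1, h2] at this
      have : N ^ 2 = 0 := by linarith
      have := pow_pos hN 2
      linarith
    · exact h
  choose M n hM hc using fun i => exists_comb hl hk hlk (u i) (v i)
  have hn : ∀ i, n i ∈ C := fun i => hC (u i) (huC i) (v i) (hvC i) (n i)
    ((hc i).between (hM i) hl hk)
  have hdist : Tendsto (fun i => dist (u i) (v i)) atTop (𝓝 (dist p q)) := hu.dist hv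
  have hM2 : Tendsto (fun i => M i ^ 2) atTop (𝓝 (N ^ 2)) := by
    have e : (fun i => M i ^ 2) = fun i => l ^ 2 + k ^ 2 + 2 * l * k * Real.cosh (dist (u i) (v i)) := by
      funext i; exact (hc i).norm
    rw [e, c.norm]
    exact tendsto_const_nhds.add (((Real.continuous_cosh.tendsto _).comp hdist).const_mul _)
  have hMlim : Tendsto M atTop (𝓝 N) := by
    have := (Real.continuous_sqrt.tendsto _).comp hM2
    rw [Real.sqrt_sq hN.le] at this
    refine this.congr fun i => ?_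
    exact Real.sqrt_sq (hM i).le
  have hcosh : Tendsto (fun i => Real.cosh (dist m (n i))) atTop (𝓝 1) := by
    have e1 : ∀ i, Real.cosh (dist m (n i)) = (l * Real.cosh (dist m (u i)) +
        k * Real.cosh (dist m (v i))) / M i := by
      intro i
      rw [eq_div_iff (hM i).ne', mul_comm]
      exact (hc i).cosh m
    have e2 : (l * Real.cosh (dist m p) + k * Real.cosh (dist m q)) / N = 1 := by
      rw [← c.cosh m, dist_self, Real.cosh_zero, mul_one, div_self hN.ne']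
    simp only [e1]
    rw [← e2]
    have t1 : Tendsto (fun i => Real.cosh (dist m (u i))) atTop (𝓝 (Real.cosh (dist m p))) :=
      (Real.continuous_cosh.tendsto _).comp (tendsto_const_nhds.dist hu)
    have t2 : Tendsto (fun i => Real.cosh (dist m (v i))) atTop (𝓝 (Real.cosh (dist m q))) :=
      (Real.continuous_cosh.tendsto _).comp (tendsto_const_nhds.dist hv)
    exact ((t1.const_mul l).add (t2.const_mul k)).div hMlim hN.ne'
  have hd0 : Tendsto (fun i => dist (n i) m) atTop (𝓝 0) := by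
    -- from cosh → 1
    have h1 : Tendsto (fun i => Real.cosh (dist m (n i)) - 1) atTop (𝓝 0) := by
      have := hcosh.sub_const 1
      rwa [sub_self] at this
    have h2 : ∀ i, dist (n i) m ≤ √(2 * (Real.cosh (dist m (n i)) - 1)) := by
      intro i
      rw [dist_comm]
      set d := dist m (n i)
      apply Real.le_sqrt_of_sq_le
      have hd : 0 ≤ d := dist_nonneg
      have e1 : Real.cosh d = 1 + 2 * Real.sinh (d / 2) ^ 2 := by
        have e1 : Real.cosh d = Real.cosh (2 * (d / 2)) := by ring_nf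
        rw [e1, Real.cosh_two_mul, Real.cosh_sq]; ring
      have e2 : d / 2 ≤ Real.sinh (d / 2) := Real.self_le_sinh_iff.mpr (by positivity)
      have e3 : 0 ≤ d / 2 := by positivity
      nlinarith
    have h3 : Tendsto (fun i => √(2 * (Real.cosh (dist m (n i)) - 1))) atTop (𝓝 0) := by
      have := (Real.continuous_sqrt.tendsto _).comp (h1.const_mul 2)
      rw [mul_zero, Real.sqrt_zero] at this
      exact this
    exact squeeze_zero (fun i => dist_nonneg) h2 h3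
  exact mem_closure_of_tendsto (tendsto_iff_dist_tendsto_zero.mpr hd0)
    (Eventually.of_forall hn)

/-- the ideal triangle is the closure of the union of segments -/
lemma idealTriangle_eq {γ₁ : ℝ → ℍ} (hray : IsRay γ₁) (y₁ : ℍ) :
    idealTriangle γ₁ y₁ = closure (TS γ₁ y₁) := by
  apply Subset.antisymm
  · apply sInter_subset_of_mem
    refine ⟨isClosed_closure, convex_closure (TS_convex hray y₁), subset_closure ?_, ?_⟩
    · exact ⟨0, le_rfl, by rw [dist_self, zero_add]⟩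
    · intro t ht
      exact subset_closure ⟨t, ht, by rw [dist_self, add_zero]⟩
  · apply subset_sInter
    rintro C ⟨hC1, hC2, hC3, hC4⟩
    apply closure_minimal _ hC1
    rintro m ⟨t, ht, hm⟩
    exact hC2 y₁ hC3 (γ₁ t) (hC4 t ht) m hm

/-! ## Midline inequality and asymptotic rays -/

/-- the midline inequality -/
def Midline (X : Type*) [MetricSpace X] : Prop :=
  ∀ A B C m n : X, dist A m = dist A B / 2 → dist m B = dist A B / 2 →
    dist A n = dist A C / 2 → dist n C = dist A C / 2 → dist m n ≤ dist B C / 2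

lemma Hadamard.midline {X : Type*} [MetricSpace X] (hX : Hadamard X) : Midline X := by
  intro A B C m n h1 h2 h3 h4
  have c1 := hX.cat0 A B m n h1 h2
  have c2 := hX.cat0 A C n B h3 h4
  rw [dist_comm n A, h3, dist_comm n B] at c1
  rw [dist_comm B A] at c2
  rw [dist_comm n m] at c1
  have : dist m n ^ 2 ≤ (dist B C / 2) ^ 2 := by nlinarith
  exact (sq_le_sq₀ dist_nonneg (by positivity)).mp this

lemma midline_H : Midline ℍ := by
  intro A B C m n h1 h2 h3 h4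
  rcases (dist_nonneg : 0 ≤ dist A B).eq_or_lt with hb | hb
  · have e1 : A = B := dist_eq_zero.mp hb.symm
    have e2 : A = m := dist_eq_zero.mp (by rw [h1, ← hb]; norm_num)
    rw [← e1, ← e2]; exact h3.le
  rcases (dist_nonneg : 0 ≤ dist A C).eq_or_lt with hc | hc
  · have e1 : A = C := dist_eq_zero.mp hc.symm
    have e2 : A = n := dist_eq_zero.mp (by rw [h3, ← hc]; norm_num)
    rw [← e1, ← e2, dist_comm m A, dist_comm B A]; exact h1.le
  have hm : dist A m + dist m B = dist A B := by rw [h1, h2]; ring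
  have hn : dist A n + dist n C = dist A C := by rw [h3, h4]; ring
  set b := dist A B / 2 with hbdef
  set c := dist A C / 2 with hcdef
  have hAB : dist A B = 2 * b := by rw [hbdef]; ring
  have hAC : dist A C = 2 * c := by rw [hcdef]; ring
  have pb : 0 < b := by rw [hbdef]; positivity
  have pc : 0 < c := by rw [hcdef]; positivity
  have s1 := stewart_H hm C
  have s2 := stewart_H hn m
  rw [h1, h2, hAB, Real.sinh_two_mul, dist_comm C A, hAC] at s1
  rw [h3, h4, hAC, Real.sinh_two_mul, dist_comm m A, h1] at s2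
  have psb : 0 < Real.sinh b := Real.sinh_pos_iff.mpr pb
  have psc : 0 < Real.sinh c := Real.sinh_pos_iff.mpr pc
  have s1' : 2 * Real.cosh b * Real.cosh (dist C m) = Real.cosh (2 * c) + Real.cosh (dist C B) := by
    have : Real.sinh b * (2 * Real.cosh b * Real.cosh (dist C m)) =
        Real.sinh b * (Real.cosh (2 * c) + Real.cosh (dist C B)) := by linarith
    exact mul_left_cancel₀ psb.ne' this
  have s2' : 2 * Real.cosh c * Real.cosh (dist m n) = Real.cosh b + Real.cosh (dist m C) := by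
    have : Real.sinh c * (2 * Real.cosh c * Real.cosh (dist m n)) =
        Real.sinh c * (Real.cosh b + Real.cosh (dist m C)) := by linarith
    exact mul_left_cancel₀ psc.ne' this
  rw [dist_comm C m, dist_comm C B] at s1'
  have t1 : dist m n ≤ b + c := by
    have := dist_triangle m A n
    rw [dist_comm m A, h1, h3] at this; exact this
  have t2 : |b - c| ≤ dist m n := by
    have := abs_dist_sub_le m n A
    rwa [dist_comm m A, dist_comm n A, h1, h3] at this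
  set x := Real.cosh (dist m n) with hx
  have k1 : x ≤ Real.cosh b * Real.cosh c + Real.sinh b * Real.sinh c := by
    rw [← Real.cosh_add]; exact cosh_le dist_nonneg t1
  have k2 : Real.cosh b * Real.cosh c - Real.sinh b * Real.sinh c ≤ x := by
    rw [← Real.cosh_sub, hx, Real.cosh_le_cosh, abs_of_nonneg (dist_nonneg (x := m) (y := n))]
    exact t2
  have k3 : (x - Real.cosh b * Real.cosh c) ^ 2 ≤ (Real.sinh b * Real.sinh c) ^ 2 := by
    apply sq_le_sq'
    · linarith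
    · linarith
  have eb := Real.cosh_sq b
  have ec := Real.cosh_sq c
  have k4 : Real.cosh (2 * dist m n) ≤ Real.cosh (dist B C) := by
    rw [Real.cosh_two_mul, Real.sinh_sq, ← hx]
    rw [Real.cosh_two_mul, Real.sinh_sq] at s1'
    have : (Real.sinh b * Real.sinh c) ^ 2 =
        (Real.cosh b ^ 2 - 1) * (Real.cosh c ^ 2 - 1) := by
      rw [mul_pow]; rw [show Real.sinh b ^ 2 = Real.cosh b ^ 2 - 1 by linarith,
        show Real.sinh c ^ 2 = Real.cosh c ^ 2 - 1 by linarith]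
    rw [this] at k3
    have e : Real.cosh (dist B C) = 2 * Real.cosh b * (2 * Real.cosh c * x - Real.cosh b) -
        (Real.cosh c ^ 2 + (Real.cosh c ^ 2 - 1)) := by
      rw [s2']; linarith
    rw [e]
    nlinarith
  have k5 := le_of_cosh (by positivity) dist_nonneg k4
  linarith

/-- a dyadic contraction argument -/
lemma dyadic {X : Type*} [MetricSpace X] (hM : Midline X) (hX : UG X) {ρ : ℝ → X}
    (hρ : IsRay ρ) {B : X} : ∀ (k : ℕ) (s : ℝ) (c : X), 0 ≤ s → 2 ^ k * s ≤ dist (ρ 0) B →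
      dist (ρ 0) c = s → dist (ρ 0) c + dist c B = dist (ρ 0) B →
      ∀ c' : X, dist (ρ 0) c' = 2 ^ k * s → dist (ρ 0) c' + dist c' B = dist (ρ 0) B →
        dist (ρ s) c ≤ dist (ρ (2 ^ k * s)) c' / 2 ^ k := by
  intro k
  induction k with
  | zero =>
    intro s c hs hle hc hcb c' hc' hcb'
    have : c = c' := hX.uniq _ _ c c' hcb hcb' (by rw [hc, hc']; ring)
    rw [this]
    simp
  | succ k ih =>
    intro s c hs hle hc hcb c' hc' hcb'
    have e1 : (2 : ℝ) ^ k * (2 * s) = 2 ^ (k + 1) * s := by ring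
    have hp : (1 : ℝ) ≤ 2 ^ k := one_le_pow₀ (by norm_num)
    have hle2 : 2 * s ≤ dist (ρ 0) B := by
      have : 2 * s ≤ 2 ^ k * (2 * s) := by nlinarith
      linarith
    obtain ⟨d, hd1, hd2⟩ := hX.ex (ρ 0) B (2 * s) (by linarith) hle2
    have h1 := ih (2 * s) d (by linarith) (by rw [e1]; exact hle) hd1 hd2 c'
      (by rw [hc', e1]) hcb'
    have h2 : dist (ρ s) c ≤ dist (ρ (2 * s)) d / 2 := by
      have r1 : dist (ρ 0) (ρ s) = s := by
        rw [hρ 0 s le_rfl hs, zero_sub, abs_neg, abs_of_nonneg hs]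
      have r2 : dist (ρ 0) (ρ (2 * s)) = 2 * s := by
        rw [hρ 0 (2 * s) le_rfl (by linarith), zero_sub, abs_neg, abs_of_nonneg (by linarith)]
      have r3 : dist (ρ s) (ρ (2 * s)) = s := by
        rw [hρ s (2 * s) hs (by linarith), abs_of_nonpos (by linarith)]; ring
      have hcd : dist c d = s := by
        rw [hX.same_seg hcb hd2 (by rw [hc, hd1]; linarith), hc, hd1]; ring
      refine hM (ρ 0) (ρ (2 * s)) d (ρ s) c ?_ ?_ ?_ ?_
      · rw [r1, r2]; ring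
      · rw [r3, r2]; ring
      · rw [hc, hd1]; ring
      · rw [hcd, hd1]; ring
    rw [e1] at h1
    calc dist (ρ s) c ≤ dist (ρ (2 * s)) d / 2 := h2
      _ ≤ (dist (ρ (2 ^ (k + 1) * s)) c' / 2 ^ k) / 2 := by linarith
      _ = dist (ρ (2 ^ (k + 1) * s)) c' / 2 ^ (k + 1) := by
          rw [div_div, pow_succ]

/-- points of the segments from `ρ 0` to far away points of an asymptotic ray converge to the
points of `ρ` -/
lemma asym_bound {X : Type*} [MetricSpace X] (hM : Midline X) (hX : UG X) {ρ γ : ℝ → X}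
    (hρ : IsRay ρ) (hγ : IsRay γ) {K : ℝ} (hK : ∀ t : ℝ, 0 ≤ t → dist (γ t) (ρ t) ≤ K)
    {s : ℝ} (hs : 0 ≤ s) (k : ℕ) {c : X} (hc : dist (ρ 0) c = s)
    (hcb : dist (ρ 0) c + dist c (γ (2 ^ k * s + dist (ρ 0) (γ 0))) =
      dist (ρ 0) (γ (2 ^ k * s + dist (ρ 0) (γ 0)))) :
    dist (ρ s) c ≤ (K + 3 * dist (ρ 0) (γ 0)) / 2 ^ k := by
  set a := dist (ρ 0) (γ 0) with ha
  have ha0 : 0 ≤ a := dist_nonneg
  have hp : (0 : ℝ) < 2 ^ k := by positivity
  set T := 2 ^ k * s + a with hT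
  have hT0 : 0 ≤ T := by positivity
  have g1 : dist (γ 0) (γ T) = T := by
    rw [hγ 0 T le_rfl hT0, zero_sub, abs_neg, abs_of_nonneg hT0]
  have g2 : T - a ≤ dist (ρ 0) (γ T) := by
    have := dist_triangle (γ 0) (ρ 0) (γ T)
    rw [g1, dist_comm (γ 0) (ρ 0)] at this
    linarith
  have g3 : dist (ρ 0) (γ T) ≤ a + T := by
    have := dist_triangle (ρ 0) (γ 0) (γ T)
    rw [g1] at this; exact this
  have hle : 2 ^ k * s ≤ dist (ρ 0) (γ T) := by linarith
  obtain ⟨c', hc1, hc2⟩ := hX.ex (ρ 0) (γ T) (2 ^ k * s) (by positivity) hle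
  have h1 := dyadic hM hX hρ k s c hs hle hc hcb c' hc1 hc2
  have h2 : dist (ρ (2 ^ k * s)) c' ≤ K + 3 * a := by
    have r1 : dist (ρ (2 ^ k * s)) (ρ T) = a := by
      rw [hρ (2 ^ k * s) T (by positivity) hT0, abs_of_nonpos (by linarith)]; linarith
    have r2 := hK T hT0
    have r3 := dist_triangle (ρ (2 ^ k * s)) (ρ T) c'
    have r4 := dist_triangle (ρ T) (γ T) c'
    rw [dist_comm (ρ T) (γ T), dist_comm (γ T) c'] at r4
    linarith
  calc dist (ρ s) c ≤ dist (ρ (2 ^ k * s)) c' / 2 ^ k := h1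
    _ ≤ (K + 3 * a) / 2 ^ k := div_le_div_of_nonneg_right h2 hp.le

lemma tendsto_pow_bound (K : ℝ) : Tendsto (fun k : ℕ => K / 2 ^ k) atTop (𝓝 0) := by
  have := (tendsto_pow_atTop_nhds_zero_of_lt_one (by norm_num : (0 : ℝ) ≤ 1 / 2)
    (by norm_num : (1 : ℝ) / 2 < 1)).const_mul K
  rw [mul_zero] at this
  refine this.congr fun k => ?_
  rw [one_div, inv_pow]; rfl

/-! ## The main theorem -/

/-- **Main theorem.** -/
theorem main {X : Type*} [MetricSpace X] (hX : Hadamard X) (hk : CurvGE X)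
    {γ σ : ℝ → X} {y : X} {γ₁ σ₁ : ℝ → ℍ} {y₁ : ℍ}
    (hγ : IsRay γ) (hγ₁ : IsRay γ₁) (hσ : IsSeg σ (γ 0) y) (hσ₁ : IsSeg σ₁ (γ₁ 0) y₁)
    (hne : γ 0 ≠ y) (h1 : dist (γ 0) y = dist (γ₁ 0) y₁) (h2 : busemann γ y = busemann γ₁ y₁)
    (h3 : angle γ σ = angle γ₁ σ₁) :
    ∃ Φ : ℍ → X,
      (∀ p ∈ idealTriangle γ₁ y₁, ∀ q ∈ idealTriangle γ₁ y₁, dist (Φ p) (Φ q) = dist p q) ∧
      GConvex (Φ '' idealTriangle γ₁ y₁) ∧
      (∀ t : ℝ, 0 ≤ t → γ₁ t ∈ idealTriangle γ₁ y₁ ∧ Φ (γ₁ t) = γ t) ∧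
      (∀ s : ℝ, 0 ≤ s → s ≤ dist (γ 0) y → σ₁ s ∈ idealTriangle γ₁ y₁ ∧ Φ (σ₁ s) = σ s) ∧
      (∀ (ρ : ℝ → X) (ρ₁ : ℝ → ℍ), IsRay ρ → IsRay ρ₁ → ρ 0 = y → ρ₁ 0 = y₁ →
        Asymptotic γ ρ → Asymptotic γ₁ ρ₁ →
        ∀ t : ℝ, 0 ≤ t → ρ₁ t ∈ idealTriangle γ₁ y₁ ∧ Φ (ρ₁ t) = ρ t) := by
  have hpos : 0 < dist (γ 0) y := dist_pos.mpr hne
  have hC : Conf γ σ y := ⟨hγ, hσ, hpos⟩
  have hC₁ : Conf γ₁ σ₁ y₁ := ⟨hγ₁, hσ₁, h1 ▸ hpos⟩
  have step := step_one hk hC hC₁ h1 h2 h3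
  have hug := hX.ug
  set a := dist (γ 0) y with ha
  have hσb : ∀ s, 0 ≤ s → s ≤ a → dist y (σ s) + dist (σ s) (γ 0) = dist y (γ 0) ∧
      dist y (σ s) = a - s := by
    intro s h0 hs
    have e1 := hC.sd h0 hs
    have e2 := (hσ.pt h0 hs).2
    rw [dist_comm y (σ s), dist_comm y (γ 0), e1, e2, ← ha]
    exact ⟨by ring, rfl⟩
  have hσb₁ : ∀ s, 0 ≤ s → s ≤ a → dist y₁ (σ₁ s) + dist (σ₁ s) (γ₁ 0) = dist y₁ (γ₁ 0) ∧
      dist y₁ (σ₁ s) = a - s := by
    intro s h0 hs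
    have hs' : s ≤ dist (γ₁ 0) y₁ := by rw [← h1]; exact hs
    have e1 := hC₁.sd h0 hs'
    have e2 := (hσ₁.pt h0 hs').2
    rw [dist_comm y₁ (σ₁ s), dist_comm y₁ (γ₁ 0), e1, e2, ← h1]
    exact ⟨by ring, rfl⟩
  have hR : Rig γ y γ₁ y₁ := by
    refine ⟨hk, hug, hγ, hγ₁, ?_⟩
    intro m m₁ t ht hm
    set s := a - dist y m with hs
    have hym : dist y m ≤ a := by
      have := hm.on
      rw [dist_comm y (γ 0), ← ha] at this
      have := dist_nonneg (x := m) (y := γ 0)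
      linarith
    have hs0 : 0 ≤ s := by linarith
    have hsa : s ≤ a := by have := dist_nonneg (x := y) (y := m); linarith
    have em : m = σ s := by
      obtain ⟨q1, q2⟩ := hσb s hs0 hsa
      exact hug.uniq y (γ 0) m (σ s) hm.on q1 (by rw [q2, hs]; ring)
    have em₁ : m₁ = σ₁ s := by
      obtain ⟨q1, q2⟩ := hσb₁ s hs0 hsa
      exact ug_H.uniq y₁ (γ₁ 0) m₁ (σ₁ s) hm.on₁ q1 (by rw [q2, hm.eq, hs]; ring)
    rw [em, em₁]
    exact (step s t hs0 hsa ht).symm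
  have h0 : dist y₁ (γ₁ 0) = dist y (γ 0) := by
    rw [dist_comm y₁, dist_comm y, ← h1]
  -- the map on the union of segments
  have hex : ∀ p : ℍ, ∃ m : X, ∀ t : ℝ, 0 ≤ t → dist y₁ p + dist p (γ₁ t) = dist y₁ (γ₁ t) →
      Pt γ y γ₁ y₁ t m p := by
    intro p
    by_cases hp : p ∈ TS γ₁ y₁
    · obtain ⟨t, ht, hpt⟩ := hp
      obtain ⟨m, hm⟩ := hR.exists_pt h0 ht hpt
      refine ⟨m, ?_⟩
      intro t' ht' hpt'
      obtain ⟨m', hm'⟩ := hR.exists_pt h0 ht' hpt'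
      have := hR.F6 h0 ht ht' hm hm'
      rw [dist_self] at this
      rw [dist_eq_zero.mp this]
      exact hm'
    · refine ⟨y, ?_⟩
      intro t ht hpt
      exact absurd ⟨t, ht, hpt⟩ hp
  choose Φ₀ hΦ₀ using hex
  have hiso₀ : ∀ p ∈ TS γ₁ y₁, ∀ q ∈ TS γ₁ y₁, dist (Φ₀ p) (Φ₀ q) = dist p q := by
    rintro p ⟨t, ht, hp⟩ q ⟨t', ht', hq⟩
    exact hR.F6 h0 ht ht' (hΦ₀ p t ht hp) (hΦ₀ q t' ht' hq)
  -- extension to the closure
  have := hX.complete
  have hext : ∀ p : ℍ, ∃ P : X, p ∈ closure (TS γ₁ y₁) →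
      ∃ u : ℕ → ℍ, (∀ i, u i ∈ TS γ₁ y₁) ∧ Tendsto u atTop (𝓝 p) ∧
        Tendsto (fun i => Φ₀ (u i)) atTop (𝓝 P) := by
    intro p
    by_cases hp : p ∈ closure (TS γ₁ y₁)
    · obtain ⟨u, huC, hu⟩ := mem_closure_iff_seq_limit.mp hp
      have hcau : CauchySeq (fun i => Φ₀ (u i)) := by
        have hcu := hu.cauchySeq
        rw [Metric.cauchySeq_iff] at hcu ⊢
        intro ε hε
        obtain ⟨N, hN⟩ := hcu ε hε
        refine ⟨N, fun m hm n hn => ?_⟩
        rw [hiso₀ _ (huC m) _ (huC n)]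
        exact hN m hm n hn
      obtain ⟨P, hP⟩ := cauchySeq_tendsto_of_complete hcau
      exact ⟨P, fun _ => ⟨u, huC, hu, hP⟩⟩
    · exact ⟨y, fun h => absurd h hp⟩
  choose Φ hΦ using hext
  have hiso : ∀ p ∈ closure (TS γ₁ y₁), ∀ q ∈ closure (TS γ₁ y₁),
      dist (Φ p) (Φ q) = dist p q := by
    intro p hp q hq
    obtain ⟨u, huC, hu, hup⟩ := hΦ p hp
    obtain ⟨v, hvC, hv, hvq⟩ := hΦ q hq
    have l1 := hup.dist hvq
    have l2 := hu.dist hv
    have e : (fun i => dist (Φ₀ (u i)) (Φ₀ (v i))) = fun i => dist (u i) (v i) := by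
      funext i; exact hiso₀ _ (huC i) _ (hvC i)
    rw [e] at l1
    exact tendsto_nhds_unique l1 l2
  have hagree : ∀ p ∈ TS γ₁ y₁, Φ p = Φ₀ p := by
    intro p hp
    obtain ⟨u, huC, hu, hup⟩ := hΦ p (subset_closure hp)
    have l1 : Tendsto (fun i => dist (Φ₀ (u i)) (Φ₀ p)) atTop (𝓝 (dist (Φ p) (Φ₀ p))) :=
      hup.dist tendsto_const_nhds
    have l2 : Tendsto (fun i => dist (u i) p) atTop (𝓝 0) := by
      have := hu.dist (tendsto_const_nhds (x := p))
      rwa [dist_self] at this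
    have e : (fun i => dist (Φ₀ (u i)) (Φ₀ p)) = fun i => dist (u i) p := by
      funext i; exact hiso₀ _ (huC i) _ hp
    rw [e] at l1
    exact dist_eq_zero.mp (tendsto_nhds_unique l1 l2)
  have hPt : ∀ (p : ℍ) (t : ℝ), 0 ≤ t → dist y₁ p + dist p (γ₁ t) = dist y₁ (γ₁ t) →
      Pt γ y γ₁ y₁ t (Φ p) p := by
    intro p t ht hp
    rw [hagree p ⟨t, ht, hp⟩]
    exact hΦ₀ p t ht hp
  have hT := idealTriangle_eq hγ₁ y₁
  rw [hT]
  refine ⟨Φ, hiso, ?_, ?_, ?_, ?_⟩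
  · -- convexity of the image
    rintro _ ⟨p, hp, rfl⟩ _ ⟨q, hq, rfl⟩ m hm
    have hpq := hiso p hp q hq
    obtain ⟨n, hn1, hn2⟩ := ug_H.ex p q (dist (Φ p) m) dist_nonneg (by
      rw [← hpq]; have := dist_nonneg (x := m) (y := Φ q); linarith)
    have hnT : n ∈ closure (TS γ₁ y₁) := convex_closure (TS_convex hγ₁ y₁) p hp q hq n hn2
    refine ⟨n, hnT, ?_⟩
    refine hug.uniq (Φ p) (Φ q) (Φ n) m ?_ hm ?_
    · rw [hiso p hp n hnT, hiso n hnT q hq, hpq]; exact hn2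
    · rw [hiso p hp n hnT, hn1]
  · intro t ht
    have hb : dist y₁ (γ₁ t) + dist (γ₁ t) (γ₁ t) = dist y₁ (γ₁ t) := by
      rw [dist_self, add_zero]
    refine ⟨subset_closure ⟨t, ht, hb⟩, ?_⟩
    have := hPt (γ₁ t) t ht hb
    refine hug.uniq y (γ t) (Φ (γ₁ t)) (γ t) this.on (by rw [dist_self, add_zero]) ?_
    rw [← this.eq]
    exact hR.yd h0 ht
  · intro s hs hsa
    obtain ⟨q1, q2⟩ := hσb₁ s hs hsa
    obtain ⟨q3, q4⟩ := hσb s hs hsa
    refine ⟨subset_closure ⟨0, le_rfl, q1⟩, ?_⟩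
    have := hPt (σ₁ s) 0 le_rfl q1
    refine hug.uniq y (γ 0) (Φ (σ₁ s)) (σ s) this.on q3 ?_
    rw [← this.eq, q2, q4]
  · rintro ρ ρ₁ hρ hρ₁ hρ0 hρ₁0 ⟨K, hK⟩ ⟨K₁, hK₁⟩ s hs
    -- points on the segments
    have hb0 : dist (ρ₁ 0) (γ₁ 0) = dist (ρ 0) (γ 0) := by rw [hρ0, hρ₁0]; exact h0
    have hpt : ∀ k : ℕ, ∃ c₁ : ℍ, dist (ρ₁ 0) c₁ = s ∧ dist (ρ₁ 0) c₁ +
        dist c₁ (γ₁ (2 ^ k * s + dist (ρ₁ 0) (γ₁ 0))) =
        dist (ρ₁ 0) (γ₁ (2 ^ k * s + dist (ρ₁ 0) (γ₁ 0))) := by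
      intro k
      set T := 2 ^ k * s + dist (ρ₁ 0) (γ₁ 0) with hTdef
      have hT0 : 0 ≤ T := by positivity
      have g1 : dist (γ₁ 0) (γ₁ T) = T := by
        rw [hγ₁ 0 T le_rfl hT0, zero_sub, abs_neg, abs_of_nonneg hT0]
      have g2 := dist_triangle (γ₁ 0) (ρ₁ 0) (γ₁ T)
      rw [g1, dist_comm (γ₁ 0) (ρ₁ 0)] at g2
      have hp : (1 : ℝ) ≤ 2 ^ k := one_le_pow₀ (by norm_num)
      have g3 : s ≤ 2 ^ k * s := by nlinarith
      obtain ⟨c, hc1, hc2⟩ := ug_H.ex (ρ₁ 0) (γ₁ T) s hs (by linarith)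
      exact ⟨c, hc1, hc2⟩
    choose c hc1 hc2 using hpt
    have hcT : ∀ k, c k ∈ TS γ₁ y₁ := fun k =>
      ⟨2 ^ k * s + dist (ρ₁ 0) (γ₁ 0), by positivity, by rw [← hρ₁0]; exact hc2 k⟩
    have lim₁ : Tendsto c atTop (𝓝 (ρ₁ s)) := by
      rw [tendsto_iff_dist_tendsto_zero]
      refine squeeze_zero (fun _ => dist_nonneg) (fun k => ?_) (tendsto_pow_bound
        (K₁ + 3 * dist (ρ₁ 0) (γ₁ 0)))
      rw [dist_comm]
      exact asym_bound midline_H ug_H hρ₁ hγ₁ hK₁ hs k (hc1 k) (hc2 k)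
    have hmem : ρ₁ s ∈ closure (TS γ₁ y₁) :=
      mem_closure_of_tendsto lim₁ (Eventually.of_forall hcT)
    refine ⟨hmem, ?_⟩
    have lim : Tendsto (fun k => Φ (c k)) atTop (𝓝 (ρ s)) := by
      rw [tendsto_iff_dist_tendsto_zero]
      refine squeeze_zero (fun _ => dist_nonneg) (fun k => ?_) (tendsto_pow_bound
        (K + 3 * dist (ρ 0) (γ 0)))
      rw [dist_comm]
      have hP := hPt (c k) (2 ^ k * s + dist (ρ₁ 0) (γ₁ 0)) (by positivity)
        (by rw [← hρ₁0]; exact hc2 k)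
      refine asym_bound hX.midline hug hρ hγ hK hs k ?_ ?_
      · rw [hρ0, ← hP.eq, ← hρ₁0]; exact hc1 k
      · rw [hρ0]
        have := hP.on
        rw [hb0, hρ0] at this
        exact this
    have lim2 : Tendsto (fun k => Φ (c k)) atTop (𝓝 (Φ (ρ₁ s))) := by
      rw [tendsto_iff_dist_tendsto_zero]
      have : (fun k => dist (Φ (c k)) (Φ (ρ₁ s))) = fun k => dist (c k) (ρ₁ s) := by
        funext k; exact hiso _ (subset_closure (hcT k)) _ hmem
      rw [this]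
      exact tendsto_iff_dist_tendsto_zero.mp lim₁
    exact tendsto_nhds_unique lim2 lim

end Pool.Agent.E8helper72.TR
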