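import Pool.Agent.E8helper72.TR.Defs

/-! # The linear model of the hyperbolic plane -/

set_option autoImplicit false

namespace Pool.Agent.E8helper72.TR

open Set Filter Topology UpperHalfPlane

noncomputable section

def va (z : ℍ) : ℝ := 1 / z.im
def vb (z : ℍ) : ℝ := z.re / z.im
def vc (z : ℍ) : ℝ := (z.re ^ 2 + z.im ^ 2) / z.im

lemma va_pos (z : ℍ) : 0 < va z := by
  unfold va
  have := z.im_pos
  positivity

lemma vdet (z : ℍ) : va z * vc z - vb z ^ 2 = 1 := by
  unfold va vb vc
  have := z.im_pos.ne'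
  field_simp
  ring

lemma vc_pos (z : ℍ) : 0 < vc z := by
  unfold vc
  have := z.im_pos
  positivity

lemma cosh_B (z w : ℍ) :
    Real.cosh (dist z w) = (va z * vc w + vc z * va w - 2 * vb z * vb w) / 2 := by
  rw [cosh_dist]
  have hz := z.im_pos.ne'
  have hw := w.im_pos.ne'
  rw [Complex.dist_eq, Complex.sq_norm, Complex.normSq_apply]
  simp only [Complex.sub_re, Complex.sub_im, coe_re, coe_im]
  unfold va vb vc
  field_simp
  ring

lemma ext_v {z w : ℍ} (ha : va z = va w) (hb : vb z = vb w) : z = w := by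
  have hz := z.im_pos.ne'
  have hw := w.im_pos.ne'
  have h1 : z.im = w.im := by
    unfold va at ha
    field_simp at ha
    linarith
  have h2 : z.re = w.re := by
    unfold vb at hb
    rw [h1] at hb
    field_simp at hb
    linarith
  apply UpperHalfPlane.ext
  apply Complex.ext
  · simpa using h2
  · simpa using h1

/-- the point with given first two coordinates -/
def mkH (a b : ℝ) (ha : 0 < a) : ℍ := ⟨⟨b / a, 1 / a⟩, by simpa using ha⟩

lemma va_mk (a b : ℝ) (ha : 0 < a) : va (mkH a b ha) = a := by
  have : (mkH a b ha).im = 1 / a := rfl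
  unfold va
  rw [this]
  field_simp

lemma vb_mk (a b : ℝ) (ha : 0 < a) : vb (mkH a b ha) = b := by
  have : (mkH a b ha).im = 1 / a := rfl
  have h2 : (mkH a b ha).re = b / a := rfl
  unfold vb
  rw [this, h2]
  field_simp

lemma vc_eq (z : ℍ) : vc z = (1 + vb z ^ 2) / va z := by
  have h := vdet z
  have h2 := va_pos z
  rw [eq_div_iff h2.ne']
  linarith

/-- `N • n = l • A + m • B` in the linear model -/
structure Comb (N l m : ℝ) (n A B : ℍ) : Prop where
  a : N * va n = l * va A + m * va B
  b : N * vb n = l * vb A + m * vb B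
  c : N * vc n = l * vc A + m * vc B

/-- a combination gives the distances -/
lemma Comb.cosh {N l m : ℝ} {n A B : ℍ} (h : Comb N l m n A B) (q : ℍ) :
    N * Real.cosh (dist q n) = l * Real.cosh (dist q A) + m * Real.cosh (dist q B) := by
  rw [cosh_B, cosh_B, cosh_B]
  linear_combination (vc q / 2) * h.a - vb q * h.b + (va q / 2) * h.c

lemma Comb.symm {N l m : ℝ} {n A B : ℍ} (h : Comb N l m n A B) : Comb N m l n B A :=
  ⟨by linarith [h.a], by linarith [h.b], by linarith [h.c]⟩

lemma Comb.norm {N l m : ℝ} {n A B : ℍ} (h : Comb N l m n A B) :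
    N ^ 2 = l ^ 2 + m ^ 2 + 2 * l * m * Real.cosh (dist A B) := by
  have h1 := h.cosh n
  have h2 := h.cosh A
  have h3 := h.cosh B
  rw [dist_self, Real.cosh_zero] at h1
  rw [dist_self, Real.cosh_zero] at h2
  rw [dist_self, Real.cosh_zero] at h3
  rw [dist_comm n A, dist_comm n B] at h1
  rw [dist_comm B A] at h3
  linear_combination N * h1 + l * h2 + m * h3

/-- normalised positive combinations exist -/
lemma exists_comb {l m : ℝ} (hl : 0 ≤ l) (hm : 0 ≤ m) (hlm : 0 < l + m) (A B : ℍ) :
    ∃ N : ℝ, ∃ n : ℍ, 0 < N ∧ Comb N l m n A B := by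
  set N2 : ℝ := l ^ 2 + m ^ 2 + 2 * l * m * Real.cosh (dist A B) with hN2
  have hcp : 1 ≤ Real.cosh (dist A B) := Real.one_le_cosh _
  have hN2p : 0 < N2 := by
    have : (l + m) ^ 2 ≤ N2 := by
      rw [hN2]
      nlinarith [mul_nonneg hl hm]
    have h2 : 0 < (l + m) ^ 2 := by positivity
    linarith
  have hN : 0 < √N2 := Real.sqrt_pos.mpr hN2p
  have hsq : √N2 ^ 2 = N2 := Real.sq_sqrt hN2p.le
  have haA := va_pos A
  have haB := va_pos B
  have hnum : 0 < l * va A + m * va B := by
    rcases hl.eq_or_lt with h | h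
    · have : 0 < m := by linarith
      rw [← h]
      have := mul_pos this haB
      linarith
    · have h1 := mul_pos h haA
      have h2 := mul_nonneg hm haB.le
      linarith
  have ha : 0 < (l * va A + m * va B) / √N2 := by positivity
  refine ⟨√N2, mkH ((l * va A + m * va B) / √N2) ((l * vb A + m * vb B) / √N2) ha, hN, ?_, ?_, ?_⟩
  · rw [va_mk]
    field_simp
  · rw [vb_mk]
    field_simp
  · rw [vc_eq, va_mk, vb_mk]
    have hdA := vdet A
    have hdB := vdet B
    have hcB := cosh_B A B
    have key : N2 + (l * vb A + m * vb B) ^ 2 = (l * va A + m * va B) * (l * vc A + m * vc B) := by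
      rw [hN2, hcB]
      linear_combination (-l ^ 2) * hdA - m ^ 2 * hdB
    have hne : (l * va A + m * va B) ≠ 0 := hnum.ne'
    have e1 : (1 + ((l * vb A + m * vb B) / √N2) ^ 2) =
        (l * va A + m * va B) * (l * vc A + m * vc B) / √N2 ^ 2 := by
      rw [← key]
      rw [div_pow, hsq]
      field_simp
    rw [e1]
    field_simp

/-- the distances to the endpoints of a combination -/
lemma Comb.sinh_left {N l m : ℝ} {n A B : ℍ} (h : Comb N l m n A B) (hN : 0 < N) (hm : 0 ≤ m) :
    N * Real.sinh (dist A n) = m * Real.sinh (dist A B) := by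
  have h1 := h.cosh A
  rw [dist_self, Real.cosh_zero] at h1
  have h2 := h.norm
  have h3 := Real.cosh_sq (dist A n)
  have h4 := Real.cosh_sq (dist A B)
  have h5 : (N * Real.sinh (dist A n)) ^ 2 = (m * Real.sinh (dist A B)) ^ 2 := by
    have e1 : (N * Real.sinh (dist A n)) ^ 2 = (N * Real.cosh (dist A n)) ^ 2 - N ^ 2 := by
      rw [mul_pow, mul_pow, h3]; ring
    have e2 : (m * Real.sinh (dist A B)) ^ 2 = m ^ 2 * Real.cosh (dist A B) ^ 2 - m ^ 2 := by
      rw [mul_pow, h4]; ring
    rw [e1, h1, e2, h2]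
    ring
  have hs1 : 0 ≤ Real.sinh (dist A n) := Real.sinh_nonneg_iff.mpr dist_nonneg
  have hs2 : 0 ≤ Real.sinh (dist A B) := Real.sinh_nonneg_iff.mpr dist_nonneg
  exact (sq_eq_sq₀ (by positivity) (by positivity)).mp h5

lemma Comb.sinh_right {N l m : ℝ} {n A B : ℍ} (h : Comb N l m n A B) (hN : 0 < N) (hl : 0 ≤ l) :
    N * Real.sinh (dist n B) = l * Real.sinh (dist A B) := by
  have := h.symm.sinh_left hN hl
  rwa [dist_comm B n, dist_comm B A] at this

/-- a nonnegative combination lies between the two points -/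
lemma Comb.between {N l m : ℝ} {n A B : ℍ} (h : Comb N l m n A B) (hN : 0 < N) (hl : 0 ≤ l)
    (hm : 0 ≤ m) : dist A n + dist n B = dist A B := by
  have h1 := h.sinh_left hN hm
  have h2 := h.sinh_right hN hl
  have h3 := h.cosh A
  have h4 := h.cosh B
  rw [dist_self, Real.cosh_zero] at h3 h4
  rw [dist_comm B n, dist_comm B A] at h4
  have h5 := h.norm
  have h6 : N ^ 2 * Real.cosh (dist A n + dist n B) = N ^ 2 * Real.cosh (dist A B) := by
    rw [Real.cosh_add]
    have e1 : N ^ 2 * (Real.cosh (dist A n) * Real.cosh (dist n B) +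
        Real.sinh (dist A n) * Real.sinh (dist n B)) =
        (N * Real.cosh (dist A n)) * (N * Real.cosh (dist n B)) +
        (N * Real.sinh (dist A n)) * (N * Real.sinh (dist n B)) := by ring
    rw [e1, h1, h2, h3, h4, h5]
    have h7 := Real.cosh_sq (dist A B)
    linear_combination (-(l * m)) * h7
  have h7 : Real.cosh (dist A n + dist n B) = Real.cosh (dist A B) :=
    mul_left_cancel₀ (by positivity) h6
  have m1 : dist A n + dist n B ∈ Ici (0 : ℝ) := by simp only [mem_Ici]; positivity
  have m2 : dist A B ∈ Ici (0 : ℝ) := by simp only [mem_Ici]; positivity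
  exact Real.cosh_strictMonoOn.injOn m1 m2 h7

/-- the point at distance `τ` from `A` on the segment from `A` to `B` -/
lemma comb_of_between {n A B : ℍ} (h : dist A n + dist n B = dist A B) :
    Comb (Real.sinh (dist A B)) (Real.sinh (dist n B)) (Real.sinh (dist A n)) n A B := by
  set L := dist A B with hL
  set τ := dist A n with hτ
  set κ := dist n B with hκ
  have hAn := cosh_B A n
  have hnB := cosh_B n B
  have hAB := cosh_B A B
  rw [← hτ] at hAn
  rw [← hκ] at hnB
  rw [← hL] at hAB
  have hdA := vdet A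
  have hdB := vdet B
  have hdn := vdet n
  -- the difference vector
  set a := Real.sinh L * va n - Real.sinh κ * va A - Real.sinh τ * va B with ha
  set b := Real.sinh L * vb n - Real.sinh κ * vb A - Real.sinh τ * vb B with hb
  set c := Real.sinh L * vc n - Real.sinh κ * vc A - Real.sinh τ * vc B with hc
  have hsL : Real.sinh L = Real.sinh τ * Real.cosh κ + Real.cosh τ * Real.sinh κ := by
    rw [← h, Real.sinh_add]
  have hcL : Real.cosh L = Real.cosh τ * Real.cosh κ + Real.sinh τ * Real.sinh κ := by
    rw [← h, Real.cosh_add]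
  have hτ2 := Real.cosh_sq τ
  have hκ2 := Real.cosh_sq κ
  have horth : a * vc A + c * va A - 2 * b * vb A = 0 := by
    have : a * vc A + c * va A - 2 * b * vb A =
        2 * (Real.sinh L * Real.cosh τ - Real.sinh κ - Real.sinh τ * Real.cosh L) := by
      rw [ha, hb, hc, hAn, hAB]
      linear_combination (-2 * Real.sinh κ) * hdA
    rw [this, hsL, hcL]
    linear_combination (2 * Real.sinh κ) * hτ2
  have hnorm : a * c - b ^ 2 = 0 := by
    have : a * c - b ^ 2 = Real.sinh L ^ 2 + Real.sinh κ ^ 2 + Real.sinh τ ^ 2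
        + 2 * Real.sinh κ * Real.sinh τ * Real.cosh L - 2 * Real.sinh L * Real.sinh κ * Real.cosh τ
        - 2 * Real.sinh L * Real.sinh τ * Real.cosh κ := by
      rw [ha, hb, hc, hAn, hAB, hnB]
      linear_combination (Real.sinh L ^ 2) * hdn + (Real.sinh κ ^ 2) * hdA
        + (Real.sinh τ ^ 2) * hdB
    rw [this, hsL, hcL]
    linear_combination (-Real.sinh κ ^ 2) * hτ2 - Real.sinh τ ^ 2 * hκ2
  have hA0 := va_pos A
  have hC0 := vc_pos A
  have hac : 0 ≤ a * c := by nlinarith [sq_nonneg b]
  have hb0 : b = 0 := by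
    have h1 : (a * vc A + c * va A) ^ 2 = 4 * b ^ 2 * vb A ^ 2 := by
      have : a * vc A + c * va A = 2 * b * vb A := by linarith
      rw [this]; ring
    have h2 : 4 * (a * c) * (va A * vc A) ≤ (a * vc A + c * va A) ^ 2 := by
      nlinarith [sq_nonneg (a * vc A - c * va A)]
    have h3 : a * c = b ^ 2 := by linarith
    have h4 : va A * vc A = 1 + vb A ^ 2 := by linarith
    rw [h1, h3, h4] at h2
    have : b ^ 2 ≤ 0 := by nlinarith
    exact pow_eq_zero_iff (two_ne_zero) |>.mp (le_antisymm this (sq_nonneg b))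
  have hac0 : a * c = 0 := by rw [hb0] at hnorm; linarith
  have hsum : a * vc A + c * va A = 0 := by rw [hb0] at horth; linarith
  have ha0 : a = 0 := by
    rcases mul_eq_zero.mp hac0 with h' | h'
    · exact h'
    · rw [h'] at hsum
      have : a * vc A = 0 := by linarith
      rcases mul_eq_zero.mp this with h'' | h''
      · exact h''
      · exact absurd h'' hC0.ne'
  have hc0 : c = 0 := by
    rw [ha0] at hsum
    have : c * va A = 0 := by linarith
    rcases mul_eq_zero.mp this with h'' | h''
    · exact h''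
    · exact absurd h'' hA0.ne'
  refine ⟨by linarith, by linarith, by linarith⟩

/-- Stewart's theorem in the hyperbolic plane -/
lemma stewart_H {n A B : ℍ} (h : dist A n + dist n B = dist A B) (q : ℍ) :
    Real.sinh (dist A B) * Real.cosh (dist q n) =
      Real.sinh (dist n B) * Real.cosh (dist q A) + Real.sinh (dist A n) * Real.cosh (dist q B) :=
  (comb_of_between h).cosh q

end

end Pool.Agent.E8helper72.TR
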