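import Pool.Agent.E8helper72.TR.Step

/-! # Rigidity: all the segments from `y` to the ray are in hyperbolic position -/

set_option autoImplicit false

namespace Pool.Agent.E8helper72.TR

open Set Filter Topology UpperHalfPlane

/-- uniquely geodesic spaces (point form) -/
structure UG (X : Type*) [MetricSpace X] : Prop where
  ex : ∀ (A B : X) (τ : ℝ), 0 ≤ τ → τ ≤ dist A B → ∃ n : X, dist A n = τ ∧
    dist A n + dist n B = dist A B
  uniq : ∀ (A B n n' : X), dist A n + dist n B = dist A B → dist A n' + dist n' B = dist A B →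
    dist A n = dist A n' → n = n'

lemma IsSeg.pt {X : Type*} [MetricSpace X] {σ : ℝ → X} {A B : X} (h : IsSeg σ A B) {τ : ℝ}
    (h0 : 0 ≤ τ) (h1 : τ ≤ dist A B) : dist A (σ τ) = τ ∧ dist (σ τ) B = dist A B - τ := by
  have e1 := h.2.2 0 τ ⟨le_rfl, dist_nonneg⟩ ⟨h0, h1⟩
  have e2 := h.2.2 τ (dist A B) ⟨h0, h1⟩ ⟨dist_nonneg, le_rfl⟩
  rw [h.1, zero_sub, abs_neg, abs_of_nonneg h0] at e1
  rw [h.2.1, abs_of_nonpos (by linarith)] at e2
  exact ⟨e1, by linarith⟩

lemma Hadamard.ug {X : Type*} [MetricSpace X] (hX : Hadamard X) : UG X := by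
  refine ⟨?_, ?_⟩
  · intro A B τ h0 h1
    obtain ⟨σ, hσ⟩ := hX.geodesic A B
    obtain ⟨e1, e2⟩ := hσ.pt h0 h1
    exact ⟨σ τ, e1, by rw [e1, e2]; ring⟩
  · intro A B n n' h h' e
    by_contra hne
    have hd : 0 < dist n n' := dist_pos.mpr hne
    obtain ⟨σ, hσ⟩ := hX.geodesic n n'
    obtain ⟨e1, e2⟩ := hσ.pt (τ := dist n n' / 2) (by positivity) (by linarith)
    set k := σ (dist n n' / 2) with hk
    have e2' : dist k n' = dist n n' / 2 := by rw [e2]; ring
    have c1 := hX.cat0 n n' k A e1 e2'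
    have c2 := hX.cat0 n n' k B e1 e2'
    rw [dist_comm B k, dist_comm B n, dist_comm B n'] at c2
    have e3 : dist n' B = dist n B := by linarith
    rw [← e] at c1
    rw [e3] at c2
    have hAn : 0 ≤ dist A n := dist_nonneg
    have hnB : 0 ≤ dist n B := dist_nonneg
    have hAk : 0 ≤ dist A k := dist_nonneg
    have hkB : 0 ≤ dist k B := dist_nonneg
    have l1 : dist A k < dist A n := by nlinarith
    have l2 : dist k B < dist n B := by nlinarith
    have l3 := dist_triangle A k B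
    linarith

lemma ug_H : UG ℍ := by
  refine ⟨?_, ?_⟩
  · intro A B τ h0 h1
    rcases (dist_nonneg : 0 ≤ dist A B).eq_or_lt with h | h
    · have : τ = 0 := by linarith
      refine ⟨A, ?_, ?_⟩
      · rw [dist_self, this]
      · rw [dist_self, zero_add]
    · have hsum : 0 < Real.sinh (dist A B - τ) + Real.sinh τ := by
        rcases h0.eq_or_lt with h2 | h2
        · rw [← h2]
          simp only [sub_zero, Real.sinh_zero, add_zero]
          exact Real.sinh_pos_iff.mpr h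
        · have := Real.sinh_pos_iff.mpr h2
          have := Real.sinh_nonneg_iff.mpr (by linarith : 0 ≤ dist A B - τ)
          linarith
      have p1 : 0 ≤ Real.sinh (dist A B - τ) := Real.sinh_nonneg_iff.mpr (by linarith)
      have p2 : 0 ≤ Real.sinh τ := Real.sinh_nonneg_iff.mpr h0
      obtain ⟨N, n, hN, hc⟩ := exists_comb p1 p2 hsum A B
      have hb := hc.between hN p1 p2
      have hn := hc.norm
      have hs := hc.sinh_left hN p2
      have hNeq : N = Real.sinh (dist A B) := by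
        have q : N ^ 2 = Real.sinh (dist A B) ^ 2 := by
          rw [hn, Real.sinh_sub]
          have c1 := Real.cosh_sq (dist A B)
          have c2 := Real.cosh_sq τ
          linear_combination (-Real.sinh τ ^ 2) * c1 + (Real.sinh (dist A B) ^ 2) * c2
        have h3 : 0 ≤ Real.sinh (dist A B) := Real.sinh_nonneg_iff.mpr h.le
        exact (sq_eq_sq₀ hN.le h3).mp q
      rw [← hNeq] at hs
      have h4 : Real.sinh (dist A n) = Real.sinh τ := by
        have : N * Real.sinh (dist A n) = N * Real.sinh τ := by linarith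
        exact mul_left_cancel₀ hN.ne' this
      exact ⟨n, Real.sinh_injective h4, hb⟩
  · intro A B n n' h h' e
    rcases (dist_nonneg : 0 ≤ dist A B).eq_or_lt with h0 | h0
    · have q1 : dist A n = 0 := by
        have := dist_nonneg (x := A) (y := n); have := dist_nonneg (x := n) (y := B); linarith
      have q2 : dist A n' = 0 := by linarith
      rw [← dist_eq_zero.mp q1, ← dist_eq_zero.mp q2]
    · have s := stewart_H h n'
      have e3 : dist n' B = dist n B := by linarith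
      rw [dist_comm n' A, ← e, e3] at s
      have e4 : Real.sinh (dist n B) * Real.cosh (dist A n) +
          Real.sinh (dist A n) * Real.cosh (dist n B) = Real.sinh (dist A B) := by
        rw [← h, Real.sinh_add]; ring
      rw [e4] at s
      have p : 0 < Real.sinh (dist A B) := Real.sinh_pos_iff.mpr h0
      have e5 : Real.cosh (dist n' n) = 1 := by
        have : Real.sinh (dist A B) * Real.cosh (dist n' n) = Real.sinh (dist A B) * 1 := by linarith
        exact mul_left_cancel₀ p.ne' this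
      have e6 : dist n' n = 0 :=
        cosh_inj dist_nonneg le_rfl (by rw [e5, Real.cosh_zero])
      exact (dist_eq_zero.mp e6).symm

section

variable {X : Type*} [MetricSpace X]

/-- transitivity of betweenness -/
lemma btw_trans {A B m p : X} (hm : dist A m + dist m B = dist A B)
    (hp : dist A p + dist p m = dist A m) : dist A p + dist p B = dist A B := by
  have h1 := dist_triangle p m B
  have h2 := dist_triangle A p B
  linarith

/-- two points on the same segment -/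
lemma UG.same_seg (hX : UG X) {A B m m' : X} (hm : dist A m + dist m B = dist A B)
    (hm' : dist A m' + dist m' B = dist A B) (hle : dist A m ≤ dist A m') :
    dist m m' = dist A m' - dist A m := by
  obtain ⟨n, hn, hb⟩ := hX.ex A m' (dist A m) dist_nonneg hle
  have hb2 := btw_trans hm' hb
  have : n = m := hX.uniq A B n m hb2 hm hn
  rw [this] at hb
  linarith

/-- on a segment, the point nearer to `A` is between `A` and the other point -/
lemma UG.btw_of_le (hX : UG X) {A B m m' : X} (hm : dist A m + dist m B = dist A B)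
    (hm' : dist A m' + dist m' B = dist A B) (hle : dist A m ≤ dist A m') :
    dist A m + dist m m' = dist A m' := by
  rw [hX.same_seg hm hm' hle]; ring

lemma UG.same_dist (hX : UG X) {A B m m' : X} {A' B' n n' : ℍ}
    (hm : dist A m + dist m B = dist A B) (hm' : dist A m' + dist m' B = dist A B)
    (hn : dist A' n + dist n B' = dist A' B') (hn' : dist A' n' + dist n' B' = dist A' B')
    (e : dist A' n = dist A m) (e' : dist A' n' = dist A m') : dist n n' = dist m m' := by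
  rcases le_total (dist A m) (dist A m') with h | h
  · rw [hX.same_seg hm hm' h, ug_H.same_seg hn hn' (by rw [e, e']; exact h), e, e']
  · rw [dist_comm n n', dist_comm m m', hX.same_seg hm' hm h,
      ug_H.same_seg hn' hn (by rw [e, e']; exact h), e, e']

/-- extension of upper bounds along a segment -/
lemma upper_ext (hk : CurvGE X) {p q m r : X} {p' q' m' r' : ℍ}
    (h : dist q m + dist m r = dist q r) (h' : dist q' m' + dist m' r' = dist q' r')
    (e1 : dist q' m' = dist q m) (e2 : dist q' r' = dist q r) (e3 : dist p' q' = dist p q)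
    (hpos : 0 < dist q m) (hle : dist p m ≤ dist p' m') : dist p r ≤ dist p' r' := by
  have s := stewart_X hk h p
  have s' := stewart_H h' p'
  have e4 : dist m' r' = dist m r := by linarith
  rw [e1, e2, e3, e4] at s'
  have c := cosh_le dist_nonneg hle
  have p1 : 0 ≤ Real.sinh (dist q r) := Real.sinh_nonneg_iff.mpr dist_nonneg
  have p2 : 0 < Real.sinh (dist q m) := Real.sinh_pos_iff.mpr hpos
  have k := mul_le_mul_of_nonneg_left c p1
  have k2 : Real.sinh (dist q m) * Real.cosh (dist p r) ≤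
      Real.sinh (dist q m) * Real.cosh (dist p' r') := by linarith
  exact le_of_cosh dist_nonneg dist_nonneg (le_of_mul_le_mul_left k2 p2)

/-- corresponding points on the segments from `y` to `γ t` and from `y₁` to `γ₁ t` -/
structure Pt (γ : ℝ → X) (y : X) (γ₁ : ℝ → ℍ) (y₁ : ℍ) (t : ℝ) (m : X) (m₁ : ℍ) : Prop where
  on : dist y m + dist m (γ t) = dist y (γ t)
  on₁ : dist y₁ m₁ + dist m₁ (γ₁ t) = dist y₁ (γ₁ t)
  eq : dist y₁ m₁ = dist y m

/-- the common hypotheses after step one -/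
structure Rig (γ : ℝ → X) (y : X) (γ₁ : ℝ → ℍ) (y₁ : ℍ) : Prop where
  hk : CurvGE X
  hX : UG X
  ray : IsRay γ
  ray₁ : IsRay γ₁
  side : ∀ (m : X) (m₁ : ℍ) (t : ℝ), 0 ≤ t → Pt γ y γ₁ y₁ 0 m m₁ →
    dist m₁ (γ₁ t) = dist m (γ t)

namespace Rig

variable {γ : ℝ → X} {y : X} {γ₁ : ℝ → ℍ} {y₁ : ℍ}

lemma gd (h : Rig γ y γ₁ y₁) {s t : ℝ} (h0 : 0 ≤ s) (h1 : s ≤ t) : dist (γ s) (γ t) = t - s := by
  rw [h.ray s t h0 (h0.trans h1), abs_of_nonpos (by linarith)]; ring

lemma gd₁ (h : Rig γ y γ₁ y₁) {s t : ℝ} (h0 : 0 ≤ s) (h1 : s ≤ t) :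
    dist (γ₁ s) (γ₁ t) = t - s := by
  rw [h.ray₁ s t h0 (h0.trans h1), abs_of_nonpos (by linarith)]; ring

lemma gg (h : Rig γ y γ₁ y₁) {s t : ℝ} (h0 : 0 ≤ s) (h1 : 0 ≤ t) :
    dist (γ₁ s) (γ₁ t) = dist (γ s) (γ t) := by
  rw [h.ray s t h0 h1, h.ray₁ s t h0 h1]

/-- distances from `y` are equal; needs the common length of the base -/
lemma yd (h : Rig γ y γ₁ y₁) (h0 : dist y₁ (γ₁ 0) = dist y (γ 0)) {t : ℝ} (ht : 0 ≤ t) :
    dist y₁ (γ₁ t) = dist y (γ t) :=
  h.side y y₁ t ht ⟨by rw [dist_self, zero_add], by rw [dist_self, zero_add],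
    by rw [dist_self, dist_self]⟩

/-- distances to the ray -/
lemma F2 (h : Rig γ y γ₁ y₁) (h0 : dist y₁ (γ₁ 0) = dist y (γ 0)) {t : ℝ} (ht : 0 ≤ t) {m : X}
    {m₁ : ℍ} (hm : Pt γ y γ₁ y₁ t m m₁) {r : ℝ} (hr : 0 ≤ r) :
    dist m₁ (γ₁ r) = dist m (γ r) := by
  rcases ht.eq_or_lt with ht0 | ht0
  · rw [← ht0] at hm
    exact h.side m m₁ r hr hm
  have Y := fun {t : ℝ} (ht : 0 ≤ t) => h.yd h0 ht
  rcases lt_trichotomy r t with hrt | hrt | hrt
  · -- E = γ (t+1)
    have hb : dist (γ r) (γ t) + dist (γ t) (γ (t + 1)) = dist (γ r) (γ (t + 1)) := by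
      rw [h.gd hr hrt.le, h.gd ht (by linarith), h.gd hr (by linarith)]; ring
    have hb₁ : dist (γ₁ r) (γ₁ t) + dist (γ₁ t) (γ₁ (t + 1)) = dist (γ₁ r) (γ₁ (t + 1)) := by
      rw [h.gd₁ hr hrt.le, h.gd₁ ht (by linarith), h.gd₁ hr (by linarith)]; ring
    refine lemB h.hk (A := y) (B := γ t) (Q := γ r) (E := γ (t + 1)) hm.on hm.on₁ hb hb₁ ?_
      (Y ht) hm.eq ?_ (h.gg hr ht) ?_ (h.gg ht (by linarith))
    · rw [h.gd ht (by linarith)]; linarith
    · rw [dist_comm (γ₁ r), dist_comm (γ r)]; exact Y hr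
    · rw [dist_comm (γ₁ _), dist_comm (γ _)]; exact Y (by linarith)
  · rw [hrt]
    have := Y ht
    have h1 := hm.on
    have h2 := hm.on₁
    have h3 := hm.eq
    linarith
  · -- E = γ 0
    have hb : dist (γ r) (γ t) + dist (γ t) (γ 0) = dist (γ r) (γ 0) := by
      rw [dist_comm (γ r) (γ t), dist_comm (γ t) (γ 0), dist_comm (γ r) (γ 0),
        h.gd ht hrt.le, h.gd le_rfl ht, h.gd le_rfl hr]; ring
    have hb₁ : dist (γ₁ r) (γ₁ t) + dist (γ₁ t) (γ₁ 0) = dist (γ₁ r) (γ₁ 0) := by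
      rw [dist_comm (γ₁ r) (γ₁ t), dist_comm (γ₁ t) (γ₁ 0), dist_comm (γ₁ r) (γ₁ 0),
        h.gd₁ ht hrt.le, h.gd₁ le_rfl ht, h.gd₁ le_rfl hr]; ring
    refine lemB h.hk (A := y) (B := γ t) (Q := γ r) (E := γ 0) hm.on hm.on₁ hb hb₁ ?_
      (Y ht) hm.eq ?_ (h.gg hr ht) ?_ (h.gg ht le_rfl)
    · rw [dist_comm, h.gd le_rfl ht]; linarith
    · rw [dist_comm (γ₁ r), dist_comm (γ r)]; exact Y hr
    · rw [dist_comm (γ₁ _), dist_comm (γ _)]; exact Y le_rfl

/-- a point on a segment from an interior point of `[y, γ t]` to `γ r` -/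
lemma F3 (h : Rig γ y γ₁ y₁) (h0 : dist y₁ (γ₁ 0) = dist y (γ 0)) {t : ℝ} (ht : 0 ≤ t) {m : X}
    {m₁ : ℍ} (hm : Pt γ y γ₁ y₁ t m m₁) (hpos : 0 < dist m (γ t)) {r : ℝ} (hr : 0 ≤ r) {n : X}
    {n₁ : ℍ} (hn : dist m n + dist n (γ r) = dist m (γ r))
    (hn₁ : dist m₁ n₁ + dist n₁ (γ₁ r) = dist m₁ (γ₁ r)) (e : dist m₁ n₁ = dist m n) :
    dist n₁ y₁ = dist n y := by
  have emr := h.F2 h0 ht hm hr
  have emt := h.F2 h0 ht hm ht
  have hn' : dist (γ r) n + dist n m = dist (γ r) m := by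
    rw [dist_comm (γ r) n, dist_comm n m, dist_comm (γ r) m]; linarith
  have hn₁' : dist (γ₁ r) n₁ + dist n₁ m₁ = dist (γ₁ r) m₁ := by
    rw [dist_comm (γ₁ r) n₁, dist_comm n₁ m₁, dist_comm (γ₁ r) m₁]; linarith
  refine lemB h.hk (A := γ r) (B := m) (Q := y) (E := γ t) hn' hn₁' hm.on hm.on₁ hpos
    ?_ ?_ (h.yd h0 hr) hm.eq (h.gg ht hr) emt
  · rw [dist_comm (γ₁ r), dist_comm (γ r)]; exact emr
  · rw [dist_comm (γ₁ r), dist_comm (γ r)]; linarith

lemma F4 (h : Rig γ y γ₁ y₁) (h0 : dist y₁ (γ₁ 0) = dist y (γ 0)) {t : ℝ} (ht : 0 ≤ t) {m : X}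
    {m₁ : ℍ} (hm : Pt γ y γ₁ y₁ t m m₁) {r : ℝ} (hr : 0 < r) {n : X}
    {n₁ : ℍ} (hn : dist m n + dist n (γ r) = dist m (γ r))
    (hn₁ : dist m₁ n₁ + dist n₁ (γ₁ r) = dist m₁ (γ₁ r)) (e : dist m₁ n₁ = dist m n)
    {s : ℝ} (hs : 0 ≤ s) (hsr : s < r) :
    dist n₁ (γ₁ s) = dist n (γ s) := by
  have M := fun {r : ℝ} (hr : 0 ≤ r) => h.F2 h0 ht hm hr
  have hb : dist (γ s) (γ r) + dist (γ r) (γ (r + 1)) = dist (γ s) (γ (r + 1)) := by
    rw [h.gd hs hsr.le, h.gd hr.le (by linarith), h.gd hs (by linarith)]; ring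
  have hb₁ : dist (γ₁ s) (γ₁ r) + dist (γ₁ r) (γ₁ (r + 1)) = dist (γ₁ s) (γ₁ (r + 1)) := by
    rw [h.gd₁ hs hsr.le, h.gd₁ hr.le (by linarith), h.gd₁ hs (by linarith)]; ring
  refine lemB h.hk (A := m) (B := γ r) (Q := γ s) (E := γ (r + 1)) hn hn₁ hb hb₁ ?_
    (M hr.le) e ?_ (h.gg hs hr.le) ?_ (h.gg hr.le (by linarith))
  · rw [h.gd hr.le (by linarith)]; linarith
  · rw [dist_comm (γ₁ s), dist_comm (γ s)]; exact M hs
  · rw [dist_comm (γ₁ _), dist_comm (γ _)]; exact M (by linarith)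

/-- crossing -/
lemma F5 (h : Rig γ y γ₁ y₁) (h0 : dist y₁ (γ₁ 0) = dist y (γ 0)) {t t' r : ℝ} (ht : 0 ≤ t)
    (htt : t < t') (hr : t' < r) {m : X}
    {m₁ : ℍ} (hm : Pt γ y γ₁ y₁ t m m₁) (hpos : 0 < dist m (γ t)) {n : X}
    {n₁ : ℍ} (hn : dist m n + dist n (γ r) = dist m (γ r))
    (hn₁ : dist m₁ n₁ + dist n₁ (γ₁ r) = dist m₁ (γ₁ r)) (e : dist m₁ n₁ = dist m n)
    (hn₁' : dist y₁ n₁ + dist n₁ (γ₁ t') = dist y₁ (γ₁ t')) : Pt γ y γ₁ y₁ t' n n₁ := by
  have ht' : 0 ≤ t' := by linarith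
  have hr0 : 0 < r := by linarith
  have e1 := h.F3 h0 ht hm hpos hr0.le hn hn₁ e
  have e2 := h.F4 h0 ht hm hr0 hn hn₁ e ht' hr
  have e3 := h.yd h0 ht'
  rw [dist_comm n₁ y₁, dist_comm n y] at e1
  exact ⟨by linarith, hn₁', e1⟩

end Rig

end

/-- small crossing pairs in the hyperbolic plane -/
lemma exists_small {γ₁ : ℝ → ℍ} {y₁ : ℍ} (hray : IsRay γ₁) {t t' : ℝ} (ht : 0 ≤ t) (htt : t < t')
    {m₁ m₁' : ℍ} (hm : dist y₁ m₁ + dist m₁ (γ₁ t) = dist y₁ (γ₁ t))
    (hm' : dist y₁ m₁' + dist m₁' (γ₁ t') = dist y₁ (γ₁ t')) (hp : 0 < dist y₁ m₁)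
    (hp' : 0 < dist y₁ m₁') : ∃ p p' : ℍ,
      dist y₁ p + dist p m₁ = dist y₁ m₁ ∧ dist y₁ p' + dist p' m₁' = dist y₁ m₁' ∧
      0 < dist y₁ p ∧ 0 < dist p (γ₁ t) ∧ 0 < dist y₁ p' ∧
      dist p p' + dist p' (γ₁ (t' + 1)) = dist p (γ₁ (t' + 1)) := by
  set r := t' + 1 with hr
  have gd : ∀ s u : ℝ, 0 ≤ s → s ≤ u → dist (γ₁ s) (γ₁ u) = u - s := by
    intro s u h0 h1
    rw [hray s u h0 (h0.trans h1), abs_of_nonpos (by linarith)]; ring
  have hL : 0 < dist y₁ (γ₁ t) := by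
    have := dist_nonneg (x := m₁) (y := γ₁ t); linarith
  have hL' : 0 < dist y₁ (γ₁ t') := by
    have := dist_nonneg (x := m₁') (y := γ₁ t'); linarith
  have hc := comb_of_between hm
  have hc' := comb_of_between hm'
  have hbt : dist (γ₁ t) (γ₁ t') + dist (γ₁ t') (γ₁ r) = dist (γ₁ t) (γ₁ r) := by
    rw [gd t t' ht htt.le, gd t' r (by linarith) (by linarith), gd t r ht (by linarith)]; ring
  have hg := comb_of_between hbt
  rw [gd t t' ht htt.le, gd t' r (by linarith) (by linarith), gd t r ht (by linarith)] at hg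
  set S := Real.sinh (dist y₁ (γ₁ t)) with hS
  set S' := Real.sinh (dist y₁ (γ₁ t')) with hS'
  set lam := Real.sinh (dist m₁ (γ₁ t)) with hlam
  set mu := Real.sinh (dist y₁ m₁) with hmu
  set lam' := Real.sinh (dist m₁' (γ₁ t')) with hlam'
  set mu' := Real.sinh (dist y₁ m₁') with hmu'
  set u := Real.sinh (r - t) with hu
  set v := Real.sinh (r - t') with hv
  set w := Real.sinh (t' - t) with hw
  have pS : 0 < S := Real.sinh_pos_iff.mpr hL
  have pS' : 0 < S' := Real.sinh_pos_iff.mpr hL'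
  have plam : 0 ≤ lam := Real.sinh_nonneg_iff.mpr dist_nonneg
  have plam' : 0 ≤ lam' := Real.sinh_nonneg_iff.mpr dist_nonneg
  have pmu : 0 < mu := Real.sinh_pos_iff.mpr hp
  have pmu' : 0 < mu' := Real.sinh_pos_iff.mpr hp'
  have pu : 0 < u := Real.sinh_pos_iff.mpr (by linarith)
  have pv : 0 < v := Real.sinh_pos_iff.mpr (by linarith)
  have pw : 0 < w := Real.sinh_pos_iff.mpr (by linarith)
  -- choice of beta
  set β : ℝ := min (mu / (lam + 1)) (mu' * v / (u * (lam' + 1))) with hβ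
  have pβ : 0 < β := lt_min (by positivity) (by positivity)
  have b1 : β * lam ≤ mu := by
    have h1 : β ≤ mu / (lam + 1) := min_le_left _ _
    have h2 : β * (lam + 1) ≤ mu := (le_div_iff₀ (by positivity)).mp h1
    nlinarith
  have b2 : β * (u / v) * lam' ≤ mu' := by
    have h1 : β ≤ mu' * v / (u * (lam' + 1)) := min_le_right _ _
    have h2 : β * (u * (lam' + 1)) ≤ mu' * v := (le_div_iff₀ (by positivity)).mp h1
    have h3 : β * (u / v) * lam' = β * u * lam' / v := by ring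
    rw [h3, div_le_iff₀ pv]
    nlinarith [mul_pos pβ pu]
  obtain ⟨N, p, hN, cp⟩ := exists_comb (l := 1) (m := β) (by norm_num) pβ.le (by linarith) y₁ (γ₁ t)
  have pβ' : 0 < β * (u / v) := by positivity
  obtain ⟨N', p', hN', cp'⟩ := exists_comb (l := 1) (m := β * (u / v)) (by norm_num) pβ'.le
    (by linarith) y₁ (γ₁ t')
  refine ⟨p, p', ?_, ?_, ?_, ?_, ?_, ?_⟩
  · have : Comb N (1 - β * lam / mu) (β * S / mu) p y₁ m₁ := by
      refine ⟨?_, ?_, ?_⟩
      · field_simp
        linear_combination mu * cp.a - β * hc.a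
      · field_simp
        linear_combination mu * cp.b - β * hc.b
      · field_simp
        linear_combination mu * cp.c - β * hc.c
    refine this.between hN ?_ (by positivity)
    rw [sub_nonneg, div_le_one pmu]
    exact b1
  · have : Comb N' (1 - β * (u / v) * lam' / mu') (β * (u / v) * S' / mu') p' y₁ m₁' := by
      refine ⟨?_, ?_, ?_⟩
      · have e1 := cp'.a
        have e2 := hc'.a
        field_simp at e1 ⊢
        linear_combination mu' * e1 - (β * u) * e2
      · have e1 := cp'.b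
        have e2 := hc'.b
        field_simp at e1 ⊢
        linear_combination mu' * e1 - (β * u) * e2
      · have e1 := cp'.c
        have e2 := hc'.c
        field_simp at e1 ⊢
        linear_combination mu' * e1 - (β * u) * e2
    refine this.between hN' ?_ (by positivity)
    rw [sub_nonneg, div_le_one pmu']
    exact b2
  · have := cp.sinh_left hN pβ.le
    have h1 : 0 < N * Real.sinh (dist y₁ p) := by rw [this]; positivity
    have h2 : 0 < Real.sinh (dist y₁ p) := by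
      by_contra hcon
      push Not at hcon
      nlinarith
    exact Real.sinh_pos_iff.mp h2
  · have := cp.sinh_right hN (by norm_num)
    have h1 : 0 < N * Real.sinh (dist p (γ₁ t)) := by rw [this]; positivity
    have h2 : 0 < Real.sinh (dist p (γ₁ t)) := by
      by_contra hcon
      push Not at hcon
      nlinarith
    exact Real.sinh_pos_iff.mp h2
  · have := cp'.sinh_left hN' pβ'.le
    have h1 : 0 < N' * Real.sinh (dist y₁ p') := by rw [this]; positivity
    have h2 : 0 < Real.sinh (dist y₁ p') := by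
      by_contra hcon
      push Not at hcon
      nlinarith
    exact Real.sinh_pos_iff.mp h2
  · have : Comb N' N (β * w / v) p' p (γ₁ r) := by
      refine ⟨?_, ?_, ?_⟩
      · have e1 := cp'.a
        have e2 := cp.a
        have e3 := hg.a
        field_simp at e1 ⊢
        linear_combination e1 + β * e3 - v * e2
      · have e1 := cp'.b
        have e2 := cp.b
        have e3 := hg.b
        field_simp at e1 ⊢
        linear_combination e1 + β * e3 - v * e2
      · have e1 := cp'.c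
        have e2 := cp.c
        have e3 := hg.c
        field_simp at e1 ⊢
        linear_combination e1 + β * e3 - v * e2
    exact this.between hN' hN.le (by positivity)

section

variable {X : Type*} [MetricSpace X] {γ : ℝ → X} {y : X} {γ₁ : ℝ → ℍ} {y₁ : ℍ}

/-- existence of corresponding points -/
lemma Rig.exists_pt (h : Rig γ y γ₁ y₁) (h0 : dist y₁ (γ₁ 0) = dist y (γ 0)) {t : ℝ} (ht : 0 ≤ t)
    {m₁ : ℍ} (hm : dist y₁ m₁ + dist m₁ (γ₁ t) = dist y₁ (γ₁ t)) : ∃ m : X,
      Pt γ y γ₁ y₁ t m m₁ := by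
  have e := h.yd h0 ht
  obtain ⟨m, h1, h2⟩ := h.hX.ex y (γ t) (dist y₁ m₁) dist_nonneg (by
    have := dist_nonneg (x := m₁) (y := γ₁ t); linarith)
  exact ⟨m, h2, hm, h1.symm⟩

lemma Rig.F6_lt (h : Rig γ y γ₁ y₁) (h0 : dist y₁ (γ₁ 0) = dist y (γ 0)) {t t' : ℝ} (ht : 0 ≤ t)
    (htt : t < t') {m m' : X} {m₁ m₁' : ℍ} (hm : Pt γ y γ₁ y₁ t m m₁)
    (hm' : Pt γ y γ₁ y₁ t' m' m₁') : dist m₁ m₁' = dist m m' := by
  have ht' : 0 ≤ t' := by linarith
  rcases (dist_nonneg : 0 ≤ dist y₁ m₁).eq_or_lt with hz | hz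
  · have e1 : y₁ = m₁ := dist_eq_zero.mp hz.symm
    have e2 : y = m := dist_eq_zero.mp (by rw [← hm.eq, ← hz])
    rw [← e1, ← e2]; exact hm'.eq
  rcases (dist_nonneg : 0 ≤ dist y₁ m₁').eq_or_lt with hz' | hz'
  · have e1 : y₁ = m₁' := dist_eq_zero.mp hz'.symm
    have e2 : y = m' := dist_eq_zero.mp (by rw [← hm'.eq, ← hz'])
    rw [← e1, ← e2, dist_comm m₁, dist_comm m]; exact hm.eq
  have emt := h.F2 h0 ht hm ht'
  apply le_antisymm
  · -- lower bound by comparison
    refine h.hk m y (γ t') m' m₁ y₁ (γ₁ t') m₁' hm'.on hm'.on₁ ?_ emt (h.yd h0 ht') hm'.eq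
    rw [dist_comm m₁ y₁, dist_comm m y]; exact hm.eq
  · obtain ⟨p, p', hp1, hp2, hp3, hp4, hp5, hp6⟩ :=
      exists_small h.ray₁ ht htt hm.on₁ hm'.on₁ hz hz'
    -- the point P on [y, m]
    have hyp : dist y₁ p ≤ dist y m := by
      rw [← hm.eq]; have := dist_nonneg (x := p) (y := m₁); linarith
    obtain ⟨P, hP1, hP2⟩ := h.hX.ex y m (dist y₁ p) dist_nonneg hyp
    have hPt : Pt γ y γ₁ y₁ t P p :=
      ⟨btw_trans hm.on hP2, btw_trans hm.on₁ hp1, hP1.symm⟩
    have hPpos : 0 < dist P (γ t) := by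
      have := h.F2 h0 ht hPt ht
      rw [← this]; exact hp4
    -- the point n on [P, γ r]
    have hPr := h.F2 h0 ht hPt (r := t' + 1) (by linarith)
    have hpp : dist p p' ≤ dist P (γ (t' + 1)) := by
      rw [← hPr]; have := dist_nonneg (x := p') (y := γ₁ (t' + 1)); linarith
    obtain ⟨n, hn1, hn2⟩ := h.hX.ex P (γ (t' + 1)) (dist p p') dist_nonneg hpp
    have hnPt : Pt γ y γ₁ y₁ t' n p' :=
      h.F5 h0 ht htt (by linarith) hPt hPpos hn2 hp6 hn1.symm (btw_trans hm'.on₁ hp2)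
    -- n lies on [y, m']
    have hle : dist y n ≤ dist y m' := by
      rw [← hnPt.eq, ← hm'.eq]; have := dist_nonneg (x := p') (y := m₁'); linarith
    have hbn := h.hX.btw_of_le hnPt.on hm'.on hle
    -- first extension: from n to m'
    have hyn : 0 < dist y n := by rw [← hnPt.eq]; exact hp5
    have hyP : 0 < dist y P := by rw [hP1]; exact hp3
    have e1 : dist p m₁' ≥ dist P m' := by
      refine upper_ext h.hk (p := P) (q := y) (m := n) (r := m') hbn hp2 hnPt.eq hm'.eq ?_ hyn ?_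
      · rw [dist_comm p y₁, dist_comm P y]; exact hPt.eq
      · rw [hn1]
    have e2 : dist m' m ≤ dist m₁' m₁ := by
      refine upper_ext h.hk (p := m') (q := y) (m := P) (r := m) hP2 hp1 hPt.eq hm.eq ?_ hyP ?_
      · rw [dist_comm m₁' y₁, dist_comm m' y]; exact hm'.eq
      · rw [dist_comm m' P, dist_comm m₁' p]; exact e1
    rw [dist_comm m m', dist_comm m₁ m₁']; exact e2

/-- all distances between corresponding points are equal -/
theorem Rig.F6 (h : Rig γ y γ₁ y₁) (h0 : dist y₁ (γ₁ 0) = dist y (γ 0)) {t t' : ℝ} (ht : 0 ≤ t)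
    (ht' : 0 ≤ t') {m m' : X} {m₁ m₁' : ℍ} (hm : Pt γ y γ₁ y₁ t m m₁)
    (hm' : Pt γ y γ₁ y₁ t' m' m₁') : dist m m' = dist m₁ m₁' := by
  rcases lt_trichotomy t t' with hlt | heq | hlt
  · exact (h.F6_lt h0 ht hlt hm hm').symm
  · rw [← heq] at hm'
    exact (h.hX.same_dist hm.on hm'.on hm.on₁ hm'.on₁ hm.eq hm'.eq).symm
  · rw [dist_comm m m', dist_comm m₁ m₁']
    exact (h.F6_lt h0 ht' hlt hm' hm).symm

end

end Pool.Agent.E8helper72.TR
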