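import Pool.Agent.E8helper72.TR.Stew

/-! # The comparison angle between its two limits -/

set_option autoImplicit false

namespace Pool.Agent.E8helper72.TR

open Set Filter Topology UpperHalfPlane

variable {X : Type*} [MetricSpace X]

/-- cosine of the hyperbolic comparison angle -/
noncomputable def CC (γ σ : ℝ → X) (s t : ℝ) : ℝ :=
  (Real.cosh s * Real.cosh t - Real.cosh (dist (σ s) (γ t))) / (Real.sinh s * Real.sinh t)

/-- a ray and a segment starting from the same point -/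
structure Conf (γ σ : ℝ → X) (y : X) : Prop where
  ray : IsRay γ
  seg : IsSeg σ (γ 0) y
  pos : 0 < dist (γ 0) y

namespace Conf

variable {γ σ : ℝ → X} {y : X}

lemma sd (h : Conf γ σ y) {s : ℝ} (h0 : 0 ≤ s) (h1 : s ≤ dist (γ 0) y) : dist (σ s) (γ 0) = s := by
  have := h.seg.2.2 s 0 ⟨h0, h1⟩ ⟨le_rfl, dist_nonneg⟩
  rw [h.seg.1, sub_zero, abs_of_nonneg h0] at this
  exact this

lemma sd2 (h : Conf γ σ y) {s t : ℝ} (h0 : 0 ≤ s) (h1 : s ≤ t) (h2 : t ≤ dist (γ 0) y) :
    dist (σ s) (σ t) = t - s := by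
  have := h.seg.2.2 s t ⟨h0, h1.trans h2⟩ ⟨h0.trans h1, h2⟩
  rw [this, abs_of_nonpos (by linarith)]; ring

lemma gd (h : Conf γ σ y) {t : ℝ} (h0 : 0 ≤ t) : dist (γ 0) (γ t) = t := by
  rw [h.ray 0 t le_rfl h0, zero_sub, abs_neg, abs_of_nonneg h0]

lemma gd2 (h : Conf γ σ y) {s t : ℝ} (h0 : 0 ≤ s) (h1 : s ≤ t) : dist (γ s) (γ t) = t - s := by
  rw [h.ray s t h0 (h0.trans h1), abs_of_nonpos (by linarith)]; ring

lemma mono_right (hk : CurvGE X) (h : Conf γ σ y) {s t t' : ℝ} (hs : 0 < s)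
    (hs1 : s ≤ dist (γ 0) y) (ht : 0 < t) (htt : t ≤ t') : CC γ σ s t ≤ CC γ σ s t' := by
  have hb : dist (γ 0) (γ t) + dist (γ t) (γ t') = dist (γ 0) (γ t') := by
    rw [h.gd ht.le, h.gd2 ht.le htt, h.gd (ht.le.trans htt)]; ring
  have hS := stewart_X hk hb (σ s)
  rw [h.gd ht.le, h.gd2 ht.le htt, h.gd (ht.le.trans htt), h.sd hs.le hs1, Real.sinh_sub] at hS
  unfold CC
  have p1 : 0 < Real.sinh s := Real.sinh_pos_iff.mpr hs
  have p2 : 0 < Real.sinh t := Real.sinh_pos_iff.mpr ht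
  have p3 : 0 < Real.sinh t' := Real.sinh_pos_iff.mpr (ht.trans_le htt)
  rw [div_le_div_iff₀ (by positivity) (by positivity)]
  have : (Real.cosh s * Real.cosh t - Real.cosh (dist (σ s) (γ t))) * Real.sinh t' ≤
      (Real.cosh s * Real.cosh t' - Real.cosh (dist (σ s) (γ t'))) * Real.sinh t := by
    nlinarith
  nlinarith

lemma mono_left (hk : CurvGE X) (h : Conf γ σ y) {s s' t : ℝ} (hs : 0 < s) (hss : s ≤ s')
    (hs1 : s' ≤ dist (γ 0) y) (ht : 0 < t) : CC γ σ s t ≤ CC γ σ s' t := by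
  have e0 : dist (γ 0) (σ s) = s := by rw [dist_comm]; exact h.sd hs.le (hss.trans hs1)
  have e1 : dist (γ 0) (σ s') = s' := by rw [dist_comm]; exact h.sd (hs.le.trans hss) hs1
  have hb : dist (γ 0) (σ s) + dist (σ s) (σ s') = dist (γ 0) (σ s') := by
    rw [e0, e1, h.sd2 hs.le hss hs1]; ring
  have hS := stewart_X hk hb (γ t)
  rw [e0, e1, h.sd2 hs.le hss hs1, dist_comm (γ t) (γ 0), h.gd ht.le, Real.sinh_sub,
    dist_comm (γ t) (σ s), dist_comm (γ t) (σ s')] at hS
  unfold CC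
  have p1 : 0 < Real.sinh s := Real.sinh_pos_iff.mpr hs
  have p2 : 0 < Real.sinh t := Real.sinh_pos_iff.mpr ht
  have p3 : 0 < Real.sinh s' := Real.sinh_pos_iff.mpr (hs.trans_le hss)
  rw [div_le_div_iff₀ (by positivity) (by positivity)]
  have : (Real.cosh s * Real.cosh t - Real.cosh (dist (σ s) (γ t))) * Real.sinh s' ≤
      (Real.cosh s' * Real.cosh t - Real.cosh (dist (σ s') (γ t))) * Real.sinh s := by
    nlinarith
  nlinarith

lemma mono (hk : CurvGE X) (h : Conf γ σ y) {s s' t t' : ℝ} (hs : 0 < s) (hss : s ≤ s')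
    (hs1 : s' ≤ dist (γ 0) y) (ht : 0 < t) (htt : t ≤ t') : CC γ σ s t ≤ CC γ σ s' t' :=
  (h.mono_left hk hs hss hs1 ht).trans (h.mono_right hk (hs.trans_le hss) hs1 ht htt)

lemma bounds (h : Conf γ σ y) {s t : ℝ} (hs : 0 < s) (hs1 : s ≤ dist (γ 0) y) (ht : 0 < t) :
    -1 ≤ CC γ σ s t ∧ CC γ σ s t ≤ 1 := by
  have p1 : 0 < Real.sinh s := Real.sinh_pos_iff.mpr hs
  have p2 : 0 < Real.sinh t := Real.sinh_pos_iff.mpr ht
  unfold CC
  constructor
  · rw [le_div_iff₀ (by positivity)]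
    have h1 : dist (σ s) (γ t) ≤ s + t := by
      have := dist_triangle (σ s) (γ 0) (γ t)
      rw [h.sd hs.le hs1, h.gd ht.le] at this
      exact this
    have h2 := cosh_le dist_nonneg h1
    rw [Real.cosh_add] at h2
    nlinarith
  · rw [div_le_iff₀ (by positivity)]
    have h1 : |s - t| ≤ dist (σ s) (γ t) := by
      have := abs_dist_sub_le (σ s) (γ t) (γ 0)
      rwa [h.sd hs.le hs1, dist_comm (γ t) (γ 0), h.gd ht.le] at this
    have h2 : Real.cosh (s - t) ≤ Real.cosh (dist (σ s) (γ t)) := by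
      rw [Real.cosh_le_cosh, abs_of_nonneg (dist_nonneg (x := σ s) (y := γ t))]
      exact h1
    rw [Real.cosh_sub] at h2
    nlinarith

/-- the limit of the comparison angle at the vertex -/
lemma exists_zero (hk : CurvGE X) (h : Conf γ σ y) :
    ∃ c : ℝ, Tendsto (fun s => CC γ σ s s) (𝓝[>] (0 : ℝ)) (𝓝 c) ∧ -1 ≤ c ∧ c ≤ 1 ∧
      ∀ s t : ℝ, 0 < s → s ≤ dist (γ 0) y → 0 < t → c ≤ CC γ σ s t := by
  set a := dist (γ 0) y with ha
  have hmono : MonotoneOn (fun s => CC γ σ s s) (Ioo 0 a) := by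
    intro s hs s' hs' hss
    exact h.mono hk hs.1 hss hs'.2.le hs.1 hss
  have hbdd : BddBelow ((fun s => CC γ σ s s) '' Ioo 0 a) := by
    refine ⟨-1, ?_⟩
    rintro _ ⟨s, hs, rfl⟩
    exact (h.bounds hs.1 hs.2.le hs.1).1
  have hne : (Ioo 0 a).Nonempty := ⟨a / 2, by constructor <;> linarith [h.pos]⟩
  have hlim := hmono.tendsto_nhdsWithin_Ioo_right hne hbdd
  refine ⟨_, hlim, ?_, ?_, ?_⟩
  · apply le_csInf (hne.image _)
    rintro _ ⟨s, hs, rfl⟩
    exact (h.bounds hs.1 hs.2.le hs.1).1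
  · obtain ⟨s, hs⟩ := hne
    exact (csInf_le hbdd (mem_image_of_mem _ hs)).trans (h.bounds hs.1 hs.2.le hs.1).2
  · intro s t hs hs1 ht
    have hu : 0 < min s t / 2 := by have := lt_min hs ht; linarith
    have hus : min s t / 2 ≤ s := by have := min_le_left s t; linarith [lt_min hs ht]
    have hut : min s t / 2 ≤ t := by have := min_le_right s t; linarith [lt_min hs ht]
    have hua : min s t / 2 < a := by
      have := min_le_left s t; linarith [lt_min hs ht]
    exact (csInf_le hbdd (mem_image_of_mem (fun s => CC γ σ s s) (⟨hu, hua⟩ : min s t / 2 ∈ Ioo 0 a))).trans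
      (h.mono hk hu hus hs1 hu hut)

end Conf

lemma sinh_le_mul_cosh {u : ℝ} (hu : 0 ≤ u) : Real.sinh u ≤ u * Real.cosh u := by
  have hm : MonotoneOn (fun x : ℝ => x * Real.cosh x - Real.sinh x) (Ici 0) := by
    apply monotoneOn_of_deriv_nonneg (convex_Ici 0)
    · fun_prop
    · intro x _
      exact (by fun_prop : DifferentiableAt ℝ (fun x : ℝ => x * Real.cosh x - Real.sinh x) x).differentiableWithinAt
    · intro x hx
      rw [interior_Ici, mem_Ioi] at hx
      have h1 : HasDerivAt (fun x : ℝ => x * Real.cosh x - Real.sinh x)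
          (1 * Real.cosh x + x * Real.sinh x - Real.cosh x) x :=
        ((hasDerivAt_id x).mul (Real.hasDerivAt_cosh x)).sub (Real.hasDerivAt_sinh x)
      rw [h1.deriv]
      have : 0 < Real.sinh x := Real.sinh_pos_iff.mpr hx
      nlinarith [mul_pos hx this]
  have := hm (mem_Ici.mpr le_rfl) (mem_Ici.mpr hu) hu
  simp at this
  linarith

lemma Conf.ratio_limit (hk : CurvGE X) {γ σ : ℝ → X} {y : X} (h : Conf γ σ y) {c : ℝ}
    (hc : Tendsto (fun s => CC γ σ s s) (𝓝[>] (0 : ℝ)) (𝓝 c)) :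
    Tendsto (fun s => dist (γ s) (σ s) / (2 * s)) (𝓝[>] (0 : ℝ)) (𝓝 (√((1 - c) / 2))) := by
  set k : ℝ → ℝ := fun s => √((1 - CC γ σ s s) / 2) with hkdef
  have hklim : Tendsto k (𝓝[>] (0 : ℝ)) (𝓝 (√((1 - c) / 2))) := by
    apply Tendsto.sqrt
    exact (tendsto_const_nhds.sub hc).div_const 2
  have hcosh : Tendsto Real.cosh (𝓝[>] (0 : ℝ)) (𝓝 1) := by
    have := Real.continuous_cosh.tendsto 0
    rw [Real.cosh_zero] at this
    exact this.mono_left nhdsWithin_le_nhds
  have hlow : Tendsto (fun s => k s / Real.cosh s) (𝓝[>] (0 : ℝ)) (𝓝 (√((1 - c) / 2))) := by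
    have := hklim.div hcosh one_ne_zero
    rw [div_one] at this
    exact this
  have hup : Tendsto (fun s => k s * Real.cosh s) (𝓝[>] (0 : ℝ)) (𝓝 (√((1 - c) / 2))) := by
    have := hklim.mul hcosh
    simpa using this
  have key : ∀ᶠ s in 𝓝[>] (0 : ℝ), k s / Real.cosh s ≤ dist (γ s) (σ s) / (2 * s) ∧
      dist (γ s) (σ s) / (2 * s) ≤ k s * Real.cosh s := by
    filter_upwards [Ioo_mem_nhdsGT h.pos] with s hs
    have hs0 : 0 < s := hs.1
    have ps : 0 < Real.sinh s := Real.sinh_pos_iff.mpr hs0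
    have pc : 0 < Real.cosh s := Real.cosh_pos s
    set d := dist (γ s) (σ s) with hd
    have hd0 : 0 ≤ d := dist_nonneg
    have hd2 : d ≤ 2 * s := by
      have := dist_triangle (γ s) (γ 0) (σ s)
      rw [dist_comm (γ s) (γ 0), h.gd hs0.le, dist_comm (γ 0) (σ s), h.sd hs0.le hs.2.le] at this
      linarith
    have hb := h.bounds hs0 hs.2.le hs0
    -- sinh (d/2) = k * sinh s
    have hcd : Real.cosh d = 1 + 2 * Real.sinh (d / 2) ^ 2 := by
      have e1 : Real.cosh d = Real.cosh (2 * (d / 2)) := by ring_nf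
      rw [e1, Real.cosh_two_mul, Real.cosh_sq]; ring
    have hCC : CC γ σ s s * Real.sinh s ^ 2 = Real.cosh s ^ 2 - Real.cosh d := by
      unfold CC
      rw [dist_comm (σ s) (γ s), ← hd]
      field_simp
    have hks : (k s) ^ 2 = (1 - CC γ σ s s) / 2 := by
      rw [hkdef]
      exact Real.sq_sqrt (by linarith)
    have hkeq : Real.sinh (d / 2) = k s * Real.sinh s := by
      have q1 : Real.sinh (d / 2) ^ 2 = (k s * Real.sinh s) ^ 2 := by
        rw [mul_pow, hks]
        have := Real.cosh_sq s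
        linear_combination (-1 / 2 : ℝ) * hcd + (1 / 2 : ℝ) * hCC + (1 / 2 : ℝ) * this
      have q2 : 0 ≤ Real.sinh (d / 2) := Real.sinh_nonneg_iff.mpr (by linarith)
      have q3 : 0 ≤ k s * Real.sinh s := mul_nonneg (Real.sqrt_nonneg _) ps.le
      exact (sq_eq_sq₀ q2 q3).mp q1
    have hkn : 0 ≤ k s := Real.sqrt_nonneg _
    have u1 : d / 2 ≤ Real.sinh (d / 2) := Real.self_le_sinh_iff.mpr (by linarith)
    have u2 : Real.sinh (d / 2) ≤ d / 2 * Real.cosh (d / 2) := sinh_le_mul_cosh (by linarith)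
    have u3 : s ≤ Real.sinh s := Real.self_le_sinh_iff.mpr hs0.le
    have u4 : Real.sinh s ≤ s * Real.cosh s := sinh_le_mul_cosh hs0.le
    have u5 : Real.cosh (d / 2) ≤ Real.cosh s := cosh_le (by linarith) (by linarith)
    constructor
    · rw [div_le_div_iff₀ pc (by linarith)]
      -- k * 2 s ≤ d * cosh s
      have v1 : k s * s ≤ k s * Real.sinh s := mul_le_mul_of_nonneg_left u3 hkn
      have v2 : d / 2 * Real.cosh (d / 2) ≤ d / 2 * Real.cosh s :=
        mul_le_mul_of_nonneg_left u5 (by linarith)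
      nlinarith
    · rw [div_le_iff₀ (by linarith)]
      have v1 : k s * Real.sinh s ≤ k s * (s * Real.cosh s) := mul_le_mul_of_nonneg_left u4 hkn
      nlinarith
  exact tendsto_of_tendsto_of_tendsto_of_le_of_le' hlow hup (key.mono fun _ h => h.1)
    (key.mono fun _ h => h.2)

/-- the angle in terms of the limit of the comparison cosines -/
lemma Conf.angle_eq (hk : CurvGE X) {γ σ : ℝ → X} {y : X} (h : Conf γ σ y) {c : ℝ}
    (hc : Tendsto (fun s => CC γ σ s s) (𝓝[>] (0 : ℝ)) (𝓝 c)) :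
    angle γ σ = 2 * Real.arcsin (√((1 - c) / 2)) := by
  have h1 := h.ratio_limit hk hc
  have h2 : Tendsto (fun t : ℝ => 2 * Real.arcsin (dist (γ t) (σ t) / (2 * t))) (𝓝[>] (0 : ℝ))
      (𝓝 (2 * Real.arcsin (√((1 - c) / 2)))) :=
    ((Real.continuous_arcsin.tendsto _).comp h1).const_mul 2
  exact h2.limUnder_eq

/-- the Busemann function exists as a limit -/
lemma busemann_tendsto {γ : ℝ → X} (hγ : IsRay γ) (p : X) :
    Tendsto (fun t : ℝ => dist p (γ t) - t) atTop (𝓝 (busemann γ p)) := by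
  -- extend to an antitone function
  set f : ℝ → ℝ := fun t => dist p (γ (max t 0)) - max t 0 with hf
  have hanti : Antitone f := by
    intro s t hst
    have h0 : (0 : ℝ) ≤ max s 0 := le_max_right _ _
    have h1 : max s 0 ≤ max t 0 := max_le_max hst le_rfl
    have h2 := hγ (max s 0) (max t 0) h0 (h0.trans h1)
    rw [abs_of_nonpos (by linarith)] at h2
    have h3 := dist_triangle p (γ (max s 0)) (γ (max t 0))
    simp only [hf]
    linarith
  have hbdd : BddBelow (range f) := by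
    refine ⟨-dist p (γ 0), ?_⟩
    rintro _ ⟨t, rfl⟩
    have h0 : (0 : ℝ) ≤ max t 0 := le_max_right _ _
    have h2 := hγ 0 (max t 0) le_rfl h0
    rw [zero_sub, abs_neg, abs_of_nonneg h0] at h2
    have h3 := dist_triangle (γ 0) p (γ (max t 0))
    rw [dist_comm (γ 0) p] at h3
    simp only [hf]
    linarith
  have h1 := tendsto_atTop_ciInf hanti hbdd
  have h2 : Tendsto (fun t : ℝ => dist p (γ t) - t) atTop (𝓝 (⨅ i, f i)) := by
    apply h1.congr'
    filter_upwards [eventually_ge_atTop (0 : ℝ)] with t ht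
    simp only [hf]
    rw [max_eq_left ht]
  have h3 : busemann γ p = ⨅ i, f i := h2.limUnder_eq
  rw [h3]
  exact h2

/-- the limit of the comparison angle at infinity -/
lemma Conf.tendsto_top {γ σ : ℝ → X} {y : X} (h : Conf γ σ y) :
    Tendsto (fun t => CC γ σ (dist (γ 0) y) t) atTop
      (𝓝 ((Real.cosh (dist (γ 0) y) - Real.exp (busemann γ y)) / Real.sinh (dist (γ 0) y))) := by
  set a := dist (γ 0) y with ha
  have ps : 0 < Real.sinh a := Real.sinh_pos_iff.mpr h.pos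
  have hb := busemann_tendsto h.ray y
  have hy : σ a = y := h.seg.2.1
  have he : Tendsto (fun t : ℝ => Real.exp (-2 * t)) atTop (𝓝 0) := by
    have : Tendsto (fun t : ℝ => -(2 * t)) atTop atBot :=
      tendsto_neg_atTop_atBot.comp (tendsto_id.const_mul_atTop (by norm_num))
    have h2 := Real.tendsto_exp_atBot.comp this
    refine h2.congr fun t => ?_
    simp [Function.comp]
  have he1 : Tendsto (fun t : ℝ => Real.exp (-t)) atTop (𝓝 0) :=
    Real.tendsto_exp_neg_atTop_nhds_zero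
  -- cosh t / sinh t
  have hct : Tendsto (fun t : ℝ => (1 + Real.exp (-2 * t)) / (1 - Real.exp (-2 * t))) atTop (𝓝 1) := by
    have := (tendsto_const_nhds (x := (1 : ℝ)).add he).div
      (tendsto_const_nhds (x := (1 : ℝ)).sub he) (by norm_num)
    rw [show ((1 : ℝ) + 0) / (1 - 0) = 1 by norm_num] at this
    exact this
  have hexpb : Tendsto (fun t : ℝ => Real.exp (dist y (γ t) - t)) atTop
      (𝓝 (Real.exp (busemann γ y))) := (Real.continuous_exp.tendsto _).comp hb
  have hsmall : Tendsto (fun t : ℝ => Real.exp (-dist y (γ t)) * Real.exp (-t)) atTop (𝓝 0) := by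
    refine squeeze_zero (fun t => by positivity) (fun t => ?_) he1
    have : Real.exp (-dist y (γ t)) ≤ 1 := Real.exp_le_one_iff.mpr (by simp)
    have p := Real.exp_pos (-t)
    nlinarith
  have hut : Tendsto (fun t : ℝ => (Real.exp (dist y (γ t) - t) +
      Real.exp (-dist y (γ t)) * Real.exp (-t)) / (1 - Real.exp (-2 * t))) atTop
      (𝓝 (Real.exp (busemann γ y))) := by
    have := (hexpb.add hsmall).div (tendsto_const_nhds (x := (1 : ℝ)).sub he) (by norm_num)
    rw [add_zero, sub_zero, div_one] at this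
    exact this
  have hfin := ((hct.const_mul (Real.cosh a)).sub hut).div_const (Real.sinh a)
  rw [mul_one] at hfin
  apply hfin.congr'
  filter_upwards [eventually_gt_atTop (0 : ℝ)] with t ht
  unfold CC
  rw [hy]
  have pt : 0 < Real.sinh t := Real.sinh_pos_iff.mpr ht
  have e1 : Real.sinh t = Real.exp t * (1 - Real.exp (-2 * t)) / 2 := by
    rw [Real.sinh_eq, mul_sub, ← Real.exp_add]; ring_nf
  have e2 : Real.cosh t = Real.exp t * (1 + Real.exp (-2 * t)) / 2 := by
    rw [Real.cosh_eq, mul_add, ← Real.exp_add]; ring_nf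
  have e3 : Real.cosh (dist y (γ t)) = Real.exp t * (Real.exp (dist y (γ t) - t) +
      Real.exp (-dist y (γ t)) * Real.exp (-t)) / 2 := by
    rw [Real.cosh_eq, mul_add, ← Real.exp_add, ← Real.exp_add, ← Real.exp_add]; ring_nf
  have pE : 0 < 1 - Real.exp (-2 * t) := by
    have := Real.exp_lt_exp.mpr (by linarith : -2 * t < 0)
    rw [Real.exp_zero] at this
    linarith
  have pe := Real.exp_pos t
  rw [e1, e2, e3]
  field_simp

lemma CC_H_const {γ σ : ℝ → ℍ} {y : ℍ} (h : Conf γ σ y) {s s' t t' : ℝ} (hs : 0 < s)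
    (hss : s ≤ s') (hs1 : s' ≤ dist (γ 0) y) (ht : 0 < t) (htt : t ≤ t') :
    CC γ σ s t = CC γ σ s' t' := by
  have a1 : CC γ σ s t = CC γ σ s' t := by
    have e0 : dist (γ 0) (σ s) = s := by rw [dist_comm]; exact h.sd hs.le (hss.trans hs1)
    have e1 : dist (γ 0) (σ s') = s' := by rw [dist_comm]; exact h.sd (hs.le.trans hss) hs1
    have hb : dist (γ 0) (σ s) + dist (σ s) (σ s') = dist (γ 0) (σ s') := by
      rw [e0, e1, h.sd2 hs.le hss hs1]; ring
    have hS := stewart_H hb (γ t)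
    rw [e0, e1, h.sd2 hs.le hss hs1, dist_comm (γ t) (γ 0), h.gd ht.le, Real.sinh_sub,
      dist_comm (γ t) (σ s), dist_comm (γ t) (σ s')] at hS
    unfold CC
    have p1 : 0 < Real.sinh s := Real.sinh_pos_iff.mpr hs
    have p2 : 0 < Real.sinh t := Real.sinh_pos_iff.mpr ht
    have p3 : 0 < Real.sinh s' := Real.sinh_pos_iff.mpr (hs.trans_le hss)
    rw [div_eq_div_iff (by positivity) (by positivity)]
    linear_combination (-Real.sinh t) * hS
  have a2 : CC γ σ s' t = CC γ σ s' t' := by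
    have hs' : 0 < s' := hs.trans_le hss
    have hb : dist (γ 0) (γ t) + dist (γ t) (γ t') = dist (γ 0) (γ t') := by
      rw [h.gd ht.le, h.gd2 ht.le htt, h.gd (ht.le.trans htt)]; ring
    have hS := stewart_H hb (σ s')
    rw [h.gd ht.le, h.gd2 ht.le htt, h.gd (ht.le.trans htt), h.sd hs'.le hs1, Real.sinh_sub] at hS
    unfold CC
    have p1 : 0 < Real.sinh s' := Real.sinh_pos_iff.mpr hs'
    have p2 : 0 < Real.sinh t := Real.sinh_pos_iff.mpr ht
    have p3 : 0 < Real.sinh t' := Real.sinh_pos_iff.mpr (ht.trans_le htt)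
    rw [div_eq_div_iff (by positivity) (by positivity)]
    linear_combination (-Real.sinh s') * hS
  rw [a1, a2]

/-- equality of angle, side and Busemann value forces all comparison angles to be equal -/
theorem step_one (hk : CurvGE X) {γ σ : ℝ → X} {y : X} {γ₁ σ₁ : ℝ → ℍ} {y₁ : ℍ}
    (h : Conf γ σ y) (h' : Conf γ₁ σ₁ y₁) (hd : dist (γ 0) y = dist (γ₁ 0) y₁)
    (hb : busemann γ y = busemann γ₁ y₁) (ha : angle γ σ = angle γ₁ σ₁) :
    ∀ s t : ℝ, 0 ≤ s → s ≤ dist (γ 0) y → 0 ≤ t →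
      dist (σ s) (γ t) = dist (σ₁ s) (γ₁ t) := by
  obtain ⟨c, hc, hc1, hc2, hcle⟩ := h.exists_zero hk
  obtain ⟨c', hc', hc1', hc2', hcle'⟩ := h'.exists_zero curvGE_H
  have e1 := h.angle_eq hk hc
  have e2 := h'.angle_eq curvGE_H hc'
  have hcc : c = c' := by
    rw [ha, e2] at e1
    have q1 : Real.arcsin (√((1 - c') / 2)) = Real.arcsin (√((1 - c) / 2)) := by linarith
    have m1 : √((1 - c) / 2) ≤ 1 := Real.sqrt_le_iff.mpr ⟨by norm_num, by linarith⟩
    have m2 : √((1 - c') / 2) ≤ 1 := Real.sqrt_le_iff.mpr ⟨by norm_num, by linarith⟩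
    have n1 := Real.sqrt_nonneg ((1 - c) / 2)
    have n2 := Real.sqrt_nonneg ((1 - c') / 2)
    have q2 := Real.injOn_arcsin (⟨by linarith, m2⟩ : √((1 - c') / 2) ∈ Icc (-1) 1)
      (⟨by linarith, m1⟩ : √((1 - c) / 2) ∈ Icc (-1) 1) q1
    have q3 : (1 - c') / 2 = (1 - c) / 2 := by
      have : √((1 - c') / 2) ^ 2 = √((1 - c) / 2) ^ 2 := by rw [q2]
      rwa [Real.sq_sqrt (by linarith), Real.sq_sqrt (by linarith)] at this
    linarith
  have t1 := h.tendsto_top
  have t2 := h'.tendsto_top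
  rw [← hd, ← hb] at t2
  intro s t hs hs1 ht
  rcases hs.eq_or_lt with hs0 | hs0
  · rw [← hs0, h.seg.1, h'.seg.1, h.gd ht, h'.gd ht]
  rcases ht.eq_or_lt with ht0 | ht0
  · rw [← ht0, h.sd hs hs1, h'.sd hs (hd ▸ hs1)]
  have hs1' : s ≤ dist (γ₁ 0) y₁ := hd ▸ hs1
  -- the constant in the model
  have k1 : ∀ t' : ℝ, t ≤ t' → CC γ₁ σ₁ (dist (γ 0) y) t' = CC γ₁ σ₁ s t := by
    intro t' htt
    exact (CC_H_const h' hs0 hs1 (le_of_eq hd) ht0 htt).symm
  have k2 : CC γ₁ σ₁ s t = (Real.cosh (dist (γ 0) y) - Real.exp (busemann γ y)) /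
      Real.sinh (dist (γ 0) y) := by
    have : Tendsto (fun t' => CC γ₁ σ₁ (dist (γ 0) y) t') atTop (𝓝 (CC γ₁ σ₁ s t)) := by
      apply tendsto_const_nhds.congr'
      filter_upwards [eventually_ge_atTop t] with t' ht'
      exact (k1 t' ht').symm
    exact tendsto_nhds_unique this t2
  have k3 : CC γ₁ σ₁ s t ≤ c' := by
    apply ge_of_tendsto hc'
    filter_upwards [Ioo_mem_nhdsGT (lt_min hs0 ht0)] with u hu
    have hus : u ≤ s := hu.2.le.trans (min_le_left _ _)
    have hut : u ≤ t := hu.2.le.trans (min_le_right _ _)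
    exact (CC_H_const h' hu.1 hus hs1' hu.1 hut).symm.le
  have k4 : CC γ σ s t ≤ CC γ₁ σ₁ s t := by
    rw [k2]
    apply ge_of_tendsto t1
    filter_upwards [eventually_ge_atTop t] with t' ht'
    exact h.mono hk hs0 hs1 le_rfl ht0 ht'
  have k5 : c ≤ CC γ σ s t := hcle s t hs0 hs1 ht0
  have k6 : CC γ σ s t = CC γ₁ σ₁ s t := by
    apply le_antisymm k4
    calc CC γ₁ σ₁ s t ≤ c' := k3
      _ = c := hcc.symm
      _ ≤ _ := k5
  have p1 : 0 < Real.sinh s := Real.sinh_pos_iff.mpr hs0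
  have p2 : 0 < Real.sinh t := Real.sinh_pos_iff.mpr ht0
  unfold CC at k6
  have k7 := (div_left_inj' (by positivity : Real.sinh s * Real.sinh t ≠ 0)).mp k6
  exact cosh_inj dist_nonneg dist_nonneg (by linarith)

end Pool.Agent.E8helper72.TR
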