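import Pool.Agent.E8helper72.TR.Mod

/-! # Stewart's inequality in spaces of curvature at least -1 -/

set_option autoImplicit false

namespace Pool.Agent.E8helper72.TR

open Set Filter Topology UpperHalfPlane

lemma cosh_inj {x y : ℝ} (hx : 0 ≤ x) (hy : 0 ≤ y) (h : Real.cosh x = Real.cosh y) : x = y :=
  Real.cosh_strictMonoOn.injOn (mem_Ici.mpr hx) (mem_Ici.mpr hy) h

lemma cosh_le {x y : ℝ} (hx : 0 ≤ x) (h : x ≤ y) : Real.cosh x ≤ Real.cosh y :=
  Real.cosh_le_cosh.mpr (by rwa [abs_of_nonneg hx, abs_of_nonneg (hx.trans h)])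

lemma le_of_cosh {x y : ℝ} (hx : 0 ≤ x) (hy : 0 ≤ y) (h : Real.cosh x ≤ Real.cosh y) : x ≤ y := by
  have := Real.cosh_le_cosh.mp h
  rwa [abs_of_nonneg hx, abs_of_nonneg hy] at this

/-- comparison triangles exist in the hyperbolic plane -/
lemma exists_triangle {x y L τ : ℝ} (hx : 0 ≤ x) (hy : 0 ≤ y) (hL : 0 < L) (h1 : L ≤ x + y)
    (h2 : x ≤ y + L) (h3 : y ≤ x + L) (h0 : 0 ≤ τ) (hτ : τ ≤ L) :
    ∃ p q r m : ℍ, dist p q = x ∧ dist p r = y ∧ dist q r = L ∧ dist q m = τ ∧
      dist m r = L - τ := by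
  have hsL : 0 < Real.sinh L := Real.sinh_pos_iff.mpr hL
  have eL : Real.exp L * Real.exp (-L) = 1 := by rw [← Real.exp_add]; simp
  have hsinh : Real.sinh L = (Real.exp L - Real.exp (-L)) / 2 := Real.sinh_eq L
  have hcosh : Real.cosh L = (Real.exp L + Real.exp (-L)) / 2 := Real.cosh_eq L
  set a : ℝ := (Real.cosh y - Real.cosh x * Real.exp (-L)) / Real.sinh L with ha
  set c : ℝ := (Real.cosh x * Real.exp L - Real.cosh y) / Real.sinh L with hc
  have hapos : 0 < a := by
    rw [ha]
    apply div_pos _ hsL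
    have k1 : Real.cosh x ≤ Real.cosh (y + L) := cosh_le hx h2
    have k2 : Real.cosh (y + L) < Real.cosh y * Real.exp L := by
      rw [Real.cosh_add]
      have e1 : Real.exp L = Real.cosh L + Real.sinh L := (Real.cosh_add_sinh L).symm
      rw [e1]
      have := Real.sinh_lt_cosh y
      nlinarith
    have k3 : Real.cosh x * Real.exp (-L) < Real.cosh y := by
      have e2 : Real.cosh x < Real.cosh y * Real.exp L := lt_of_le_of_lt k1 k2
      have e3 := mul_lt_mul_of_pos_right e2 (Real.exp_pos (-L))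
      have e4 : Real.cosh y * Real.exp L * Real.exp (-L) = Real.cosh y := by
        rw [mul_assoc, eL, mul_one]
      linarith
    linarith
  have hac : 1 ≤ a * c := by
    have e : a * c = ((Real.cosh y - Real.cosh x * Real.exp (-L)) *
        (Real.cosh x * Real.exp L - Real.cosh y)) / Real.sinh L ^ 2 := by
      rw [ha, hc]; field_simp
    rw [e, le_div_iff₀ (by positivity), one_mul]
    have hs2 := Real.cosh_sq L
    have e2 : (Real.cosh y - Real.cosh x * Real.exp (-L)) *
        (Real.cosh x * Real.exp L - Real.cosh y) - Real.sinh L ^ 2 =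
        (Real.cosh (x + y) - Real.cosh L) * (Real.cosh L - Real.cosh (x - y)) := by
      rw [Real.cosh_add, Real.cosh_sub]
      have hx2 := Real.cosh_sq x
      have hy2 := Real.cosh_sq y
      have e3 : (Real.cosh y - Real.cosh x * Real.exp (-L)) *
        (Real.cosh x * Real.exp L - Real.cosh y) = 2 * Real.cosh x * Real.cosh y * Real.cosh L
          - Real.cosh x ^ 2 - Real.cosh y ^ 2 := by
        rw [hcosh]
        linear_combination (-Real.cosh x ^ 2) * eL
      rw [e3]
      have e4 : Real.sinh x ^ 2 = Real.cosh x ^ 2 - 1 := by linarith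
      have e5 : Real.sinh y ^ 2 = Real.cosh y ^ 2 - 1 := by linarith
      have e6 : Real.sinh L ^ 2 = Real.cosh L ^ 2 - 1 := by linarith
      have e7 : (Real.sinh x * Real.sinh y) ^ 2 = (Real.cosh x ^ 2 - 1) * (Real.cosh y ^ 2 - 1) := by
        rw [mul_pow, e4, e5]
      rw [e6]
      linear_combination (-1 : ℝ) * e7
    have k1 : Real.cosh L ≤ Real.cosh (x + y) := cosh_le hL.le h1
    have k2 : Real.cosh (x - y) ≤ Real.cosh L := by
      rw [Real.cosh_le_cosh, abs_of_pos hL, abs_le]
      constructor <;> linarith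
    nlinarith [mul_nonneg (sub_nonneg.mpr k1) (sub_nonneg.mpr k2)]
  have hcpos : c = (1 + √(a * c - 1) ^ 2) / a := by
    rw [Real.sq_sqrt (by linarith)]
    field_simp
    ring
  set p : ℍ := mkH a (√(a * c - 1)) hapos with hp
  set q : ℍ := mkH 1 0 one_pos with hq
  set r : ℍ := mkH (Real.exp (-L)) 0 (Real.exp_pos _) with hr
  set m : ℍ := mkH (Real.exp (-τ)) 0 (Real.exp_pos _) with hm
  have eτ : Real.exp τ * Real.exp (-τ) = 1 := by rw [← Real.exp_add]; simp
  have vpa : va p = a := va_mk _ _ _
  have vpb : vb p = √(a * c - 1) := vb_mk _ _ _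
  have vpc : vc p = c := by rw [vc_eq, vpa, vpb]; exact hcpos.symm
  have vqa : va q = 1 := va_mk _ _ _
  have vqb : vb q = 0 := vb_mk _ _ _
  have vqc : vc q = 1 := by rw [vc_eq, vqa, vqb]; norm_num
  have vra : va r = Real.exp (-L) := va_mk _ _ _
  have vrb : vb r = 0 := vb_mk _ _ _
  have vrc : vc r = Real.exp L := by
    rw [vc_eq, vra, vrb, Real.exp_neg]; simp
  have vma : va m = Real.exp (-τ) := va_mk _ _ _
  have vmb : vb m = 0 := vb_mk _ _ _
  have vmc : vc m = Real.exp τ := by
    rw [vc_eq, vma, vmb, Real.exp_neg]; simp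
  refine ⟨p, q, r, m, ?_, ?_, ?_, ?_, ?_⟩
  · apply cosh_inj dist_nonneg hx
    rw [cosh_B, vpa, vpb, vpc, vqa, vqb, vqc, ha, hc]
    field_simp
    rw [hsinh]
    ring
  · apply cosh_inj dist_nonneg hy
    rw [cosh_B, vpa, vpb, vpc, vra, vrb, vrc, ha, hc]
    field_simp
    rw [hsinh]
    linear_combination (0 : ℝ) * eL
  · apply cosh_inj dist_nonneg hL.le
    rw [cosh_B, vqa, vqb, vqc, vra, vrb, vrc, hcosh]
    ring
  · apply cosh_inj dist_nonneg h0
    rw [cosh_B, vqa, vqb, vqc, vma, vmb, vmc, Real.cosh_eq]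
    ring
  · apply cosh_inj dist_nonneg (by linarith)
    rw [cosh_B, vma, vmb, vmc, vra, vrb, vrc, Real.cosh_eq, Real.exp_sub,
      show -(L - τ) = τ - L by ring, Real.exp_sub]
    rw [Real.exp_neg, Real.exp_neg]
    field_simp
    ring

variable {X : Type*} [MetricSpace X]

/-- Stewart's inequality -/
lemma stewart_X (hk : CurvGE X) {q r m : X} (h : dist q m + dist m r = dist q r) (p : X) :
    Real.sinh (dist m r) * Real.cosh (dist p q) + Real.sinh (dist q m) * Real.cosh (dist p r) ≤
      Real.sinh (dist q r) * Real.cosh (dist p m) := by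
  rcases (dist_nonneg : 0 ≤ dist q r).eq_or_lt with h0 | h0
  · have h1 : dist q m = 0 := by
      have := dist_nonneg (x := q) (y := m); have := dist_nonneg (x := m) (y := r); linarith
    have h2 : dist m r = 0 := by
      have := dist_nonneg (x := q) (y := m); have := dist_nonneg (x := m) (y := r); linarith
    rw [h1, h2, ← h0]
    simp
  · have hqm : 0 ≤ dist q m := dist_nonneg
    have hmr : 0 ≤ dist m r := dist_nonneg
    have t1 : dist q r ≤ dist p q + dist p r := by
      have := dist_triangle q p r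
      rw [dist_comm q p] at this; exact this
    have t2 : dist p q ≤ dist p r + dist q r := by
      have := dist_triangle p r q
      rw [dist_comm r q] at this; exact this
    have t3 : dist p r ≤ dist p q + dist q r := dist_triangle p q r
    obtain ⟨p', q', r', m', e1, e2, e3, e4, e5⟩ := exists_triangle (x := dist p q) (y := dist p r)
      (L := dist q r) (τ := dist q m) dist_nonneg dist_nonneg h0 t1 t2 t3 hqm (by linarith)
    have e5' : dist m' r' = dist m r := by rw [e5]; linarith
    have hb : dist q' m' + dist m' r' = dist q' r' := by rw [e4, e5, e3]; ring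
    have h1 := hk p q r m p' q' r' m' h hb e1 e2 e3 e4
    have h2 := stewart_H hb p'
    rw [e1, e2, e3, e4, e5'] at h2
    have h3 : Real.cosh (dist p' m') ≤ Real.cosh (dist p m) := cosh_le dist_nonneg h1
    have h4 : 0 < Real.sinh (dist q r) := Real.sinh_pos_iff.mpr h0
    have h5 := mul_le_mul_of_nonneg_left h3 h4.le
    linarith

/-- the hyperbolic plane has curvature at least `-1` -/
lemma curvGE_H : CurvGE ℍ := by
  intro p q r m p' q' r' m' h h' e1 e2 e3 e4
  have h1 := stewart_H h p
  have h2 := stewart_H h' p'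
  have e5 : dist m' r' = dist m r := by linarith
  rw [e1, e2, e3, e4, e5, ← h1] at h2
  rcases (dist_nonneg : 0 ≤ dist q r).eq_or_lt with h0 | h0
  · have h3 : dist q m = 0 := by
      have := dist_nonneg (x := q) (y := m); have := dist_nonneg (x := m) (y := r); linarith
    have h4 : q' = m' := dist_eq_zero.mp (by rw [e4, h3])
    have h5 : q = m := dist_eq_zero.mp h3
    rw [← h4, ← h5, e1]
  · have h4 : 0 < Real.sinh (dist q r) := Real.sinh_pos_iff.mpr h0
    have h5 := mul_left_cancel₀ h4.ne' h2
    exact le_of_cosh dist_nonneg dist_nonneg h5.le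

/-- Lemma B: a point on a segment ending in the interior of another segment -/
lemma lemB (hk : CurvGE X) {A B Q E m : X} {A' B' Q' E' m' : ℍ}
    (hm : dist A m + dist m B = dist A B) (hm' : dist A' m' + dist m' B' = dist A' B')
    (hQ : dist Q B + dist B E = dist Q E) (hQ' : dist Q' B' + dist B' E' = dist Q' E')
    (hBE : 0 < dist B E)
    (eAB : dist A' B' = dist A B) (eAm : dist A' m' = dist A m)
    (eQA : dist Q' A' = dist Q A) (eQB : dist Q' B' = dist Q B)
    (eEA : dist E' A' = dist E A) (eBE : dist B' E' = dist B E) :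
    dist m' Q' = dist m Q := by
  have eQE : dist Q' E' = dist Q E := by linarith
  have emB : dist m' B' = dist m B := by linarith
  have eEB : dist E' B' = dist E B := by rw [dist_comm E' B', dist_comm E B, eBE]
  have l1 : dist Q' m' ≤ dist Q m := hk Q A B m Q' A' B' m' hm hm' eQA eQB eAB eAm
  have l2 : dist E' m' ≤ dist E m := hk E A B m E' A' B' m' hm hm' eEA eEB eAB eAm
  have s1 := stewart_X hk hQ m
  have s2 := stewart_H hQ' m'
  rw [eQE, eBE, eQB, emB] at s2
  have c1 : Real.cosh (dist m' Q') ≤ Real.cosh (dist m Q) := by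
    rw [dist_comm m' Q', dist_comm m Q]; exact cosh_le dist_nonneg l1
  have c2 : Real.cosh (dist m' E') ≤ Real.cosh (dist m E) := by
    rw [dist_comm m' E', dist_comm m E]; exact cosh_le dist_nonneg l2
  have p1 : 0 < Real.sinh (dist B E) := Real.sinh_pos_iff.mpr hBE
  have p2 : 0 ≤ Real.sinh (dist Q B) := Real.sinh_nonneg_iff.mpr dist_nonneg
  have k2 := mul_le_mul_of_nonneg_left c2 p2
  have k1 : Real.sinh (dist B E) * Real.cosh (dist m Q) ≤
      Real.sinh (dist B E) * Real.cosh (dist m' Q') := by linarith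
  have k3 := le_of_mul_le_mul_left k1 p1
  exact cosh_inj dist_nonneg dist_nonneg (le_antisymm c1 k3)

end Pool.Agent.E8helper72.TR
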